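import Pool.Agent.helper5.PR.SpecK

set_option autoImplicit false

namespace Pool.Agent.PR

open Matrix

theorem K_EMB_core1 (hAI : K_AI_stmt) (hTB : K_TB_stmt) (hEXT : K_EXT_stmt) (hINT : K_INT_stmt)
    (E : Type) [Field E] [CharZero E] (S : Finset E)
    (hS : IntermediateField.adjoin ℚ (S : Set E) = ⊤) (c : E) (hc : IsAlgebraic ℚ c) :
    ∃ N : ℕ, N ≠ 0 ∧ ∀ (ℓ : ℕ) [Fact ℓ.Prime], ¬ ℓ ∣ N →
      ∀ γ : Om ℓ, Polynomial.aeval γ (minpoly ℚ c) = 0 →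
      ∃ σ : E →+* Om ℓ, (∀ s ∈ S, IsIntegral ℤ_[ℓ] (σ s)) ∧ σ c = γ := by
  obtain ⟨⟨d, u, hu⟩, -⟩ := hTB E S hS
  obtain ⟨N, β, hN, hint⟩ := hINT E d u hu S
  refine ⟨N, hN, ?_⟩
  intro ℓ _ hℓ γ hγ
  obtain ⟨x, hx⟩ := hAI ℓ d
  obtain ⟨σ, hσ, hσc⟩ := hEXT E d u hu (Om ℓ) _ (hx β) c hc γ hγ
  exact ⟨σ, hint ℓ hℓ x σ hσ, hσc⟩

theorem K_EMB_core2 (hAI : K_AI_stmt) (hTB : K_TB_stmt) (hEXT : K_EXT_stmt) (hINT : K_INT_stmt)
    (E : Type) [Field E] [CharZero E] (S : Finset E)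
    (hS : IntermediateField.adjoin ℚ (S : Set E) = ⊤) (c : E) (hc : Transcendental ℚ c) :
    ∃ N : ℕ, N ≠ 0 ∧ ∀ (ℓ : ℕ) [Fact ℓ.Prime], ¬ ℓ ∣ N →
      ∃ b : ℕ → Om ℓ, Function.Injective b ∧ ∀ j,
        ∃ σ : E →+* Om ℓ, (∀ s ∈ S, IsIntegral ℤ_[ℓ] (σ s)) ∧ σ c = b j := by
  obtain ⟨-, h2⟩ := hTB E S hS
  obtain ⟨d, u, hu, hu0⟩ := h2 c hc
  obtain ⟨N, β, hN, hint⟩ := hINT E (d + 1) u hu S
  refine ⟨N, hN, ?_⟩
  intro ℓ _ hℓ
  obtain ⟨x, hx⟩ := hAI ℓ (d + 1)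
  have hinj : Function.Injective (algebraMap ℤ_[ℓ] (Om ℓ)) := by
    rw [IsScalarTower.algebraMap_eq ℤ_[ℓ] ℚ_[ℓ] (Om ℓ)]
    exact (algebraMap ℚ_[ℓ] (Om ℓ)).injective.comp (IsFractionRing.injective ℤ_[ℓ] ℚ_[ℓ])
  refine ⟨fun j => algebraMap ℤ_[ℓ] (Om ℓ) ((β 0 : ℤ_[ℓ]) + (ℓ : ℤ_[ℓ]) * (x 0 + (j : ℤ_[ℓ]))), ?_, ?_⟩
  · intro i j hij
    have h1 := hinj hij
    have h2 : (ℓ : ℤ_[ℓ]) ≠ 0 := by
      have := (Fact.out : ℓ.Prime).ne_zero
      exact_mod_cast this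
    have h3 := add_left_cancel h1
    have h4 := mul_left_cancel₀ h2 h3
    have h5 := add_left_cancel h4
    exact_mod_cast h5
  · intro j
    have hb : AlgebraicIndependent ℚ (fun i => algebraMap ℤ_[ℓ] (Om ℓ)
        ((β i : ℤ_[ℓ]) + (ℓ : ℤ_[ℓ]) * (x i + if i = 0 then (j : ℤ_[ℓ]) else 0))) := by
      have h := hx (fun i => β i + ℓ * (if i = 0 then (j : ℤ) else 0))
      have e : (fun i => algebraMap ℤ_[ℓ] (Om ℓ)
          (((β i + ℓ * (if i = 0 then (j : ℤ) else 0) : ℤ) : ℤ_[ℓ]) + (ℓ : ℤ_[ℓ]) * x i)) =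
          fun i => algebraMap ℤ_[ℓ] (Om ℓ)
        ((β i : ℤ_[ℓ]) + (ℓ : ℤ_[ℓ]) * (x i + if i = 0 then (j : ℤ_[ℓ]) else 0)) := by
        funext i
        congr 1
        split_ifs
        · push_cast; ring
        · push_cast; ring
      rw [← e]
      exact h
    have hz : IsAlgebraic ℚ (0 : E) := isAlgebraic_zero
    obtain ⟨σ, hσ, -⟩ := hEXT E (d + 1) u hu (Om ℓ) _ hb 0 hz 0 (by simp)
    refine ⟨σ, hint ℓ hℓ _ σ hσ, ?_⟩
    rw [← hu0, hσ 0]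
    simp

theorem K_EMB (hAI : K_AI_stmt) (hTB : K_TB_stmt) (hEXT : K_EXT_stmt) (hINT : K_INT_stmt) :
    K_EMB_stmt := by
  intro E _ _ S
  classical
  set K : IntermediateField ℚ E := IntermediateField.adjoin ℚ (S : Set E) with hK
  have hmem : ∀ s ∈ S, s ∈ K := fun s hs => IntermediateField.subset_adjoin ℚ _ hs
  let S' : Finset K := S.attach.image (fun s => (⟨s.1, hmem s.1 s.2⟩ : K))
  have hS'coe : ((S' : Set K)) = Subtype.val ⁻¹' (S : Set E) := by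
    ext y
    simp only [S', Finset.coe_image, Set.mem_image, Finset.mem_coe, Finset.mem_attach, true_and,
      Set.mem_preimage, Subtype.exists]
    constructor
    · rintro ⟨a, ha, rfl⟩
      exact ha
    · intro hy
      exact ⟨y.1, hy, rfl⟩
  have hS' : IntermediateField.adjoin ℚ (S' : Set K) = ⊤ := by
    rw [eq_top_iff]
    rintro ⟨z, hz⟩ -
    induction hz using IntermediateField.adjoin_induction with
    | mem x hx =>
      apply IntermediateField.subset_adjoin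
      rw [hS'coe]
      exact hx
    | algebraMap r =>
      have e : (⟨algebraMap ℚ E r, K.algebraMap_mem r⟩ : K) = ((r : ℚ) : K) := by
        apply Subtype.ext
        simp
      rw [e]
      exact SubfieldClass.ratCast_mem _ r
    | add x y hx hy ihx ihy => exact add_mem ihx ihy
    | mul x y hx hy ihx ihy => exact mul_mem ihx ihy
    | inv x hx ihx => exact inv_mem ihx
  -- the inclusion of the ring
  have hsub : ∀ a ∈ Algebra.adjoin ℤ (S : Set E), a ∈ K := by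
    intro a ha
    induction ha using Algebra.adjoin_induction with
    | mem x hx => exact hmem x hx
    | algebraMap r => exact intCast_mem K r
    | add x y _ _ hx hy => exact add_mem hx hy
    | mul x y _ _ hx hy => exact mul_mem hx hy
  let ι : Algebra.adjoin ℤ (S : Set E) →+* K :=
    { toFun := fun a => ⟨a.1, hsub a.1 a.2⟩
      map_one' := rfl
      map_mul' := fun _ _ => rfl
      map_zero' := rfl
      map_add' := fun _ _ => rfl }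
  have hι : Function.Injective ι := fun a b h => Subtype.ext (congrArg (fun z : K => (z : E)) h)
  have hgood : ∀ (ℓ : ℕ) [Fact ℓ.Prime] (τ : K →+* Om ℓ), (∀ s ∈ S', IsIntegral ℤ_[ℓ] (τ s)) →
      GoodEmb S ℓ (τ.comp ι) := by
    intro ℓ _ τ hτ
    refine ⟨τ.injective.comp hι, ?_⟩
    rintro ⟨a, ha⟩
    induction ha using Algebra.adjoin_induction with
    | mem x hx =>
      exact hτ ⟨x, hmem x hx⟩ (by
        rw [← Finset.mem_coe, hS'coe]; exact hx)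
    | algebraMap r =>
      have e : (τ.comp ι) ⟨algebraMap ℤ E r, (Algebra.adjoin ℤ (S : Set E)).algebraMap_mem r⟩ =
          ((r : ℤ_[ℓ]) |> algebraMap ℤ_[ℓ] (Om ℓ)) := by
        have e1 : (⟨algebraMap ℤ E r, (Algebra.adjoin ℤ (S : Set E)).algebraMap_mem r⟩ :
          Algebra.adjoin ℤ (S : Set E)) = (r : Algebra.adjoin ℤ (S : Set E)) := rfl
        rw [e1]
        simp
      exact e ▸ isIntegral_algebraMap
    | add x y hx hy ihx ihy =>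
      have e : (τ.comp ι) ⟨x + y, add_mem hx hy⟩ = (τ.comp ι) ⟨x, hx⟩ + (τ.comp ι) ⟨y, hy⟩ := by
        rw [← map_add]; rfl
      exact e ▸ ihx.add ihy
    | mul x y hx hy ihx ihy =>
      have e : (τ.comp ι) ⟨x * y, mul_mem hx hy⟩ = (τ.comp ι) ⟨x, hx⟩ * (τ.comp ι) ⟨y, hy⟩ := by
        rw [← map_mul]; rfl
      exact e ▸ ihx.mul ihy
  refine ⟨?_, ?_, ?_⟩
  · obtain ⟨N, hN, h⟩ := K_EMB_core1 hAI hTB hEXT hINT K S' hS' 0 isAlgebraic_zero
    refine ⟨N, hN, ?_⟩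
    intro ℓ _ hℓ
    obtain ⟨τ, hτ, -⟩ := h ℓ hℓ 0 (by simp)
    exact ⟨τ.comp ι, hgood ℓ τ hτ⟩
  · intro c hc
    have hc' : Transcendental ℚ (ι c) := by
      intro h
      apply hc
      exact (isAlgebraic_algebraMap_iff (R := ℚ) (S := K) (A := E) Subtype.val_injective).mpr h
    obtain ⟨N, hN, h⟩ := K_EMB_core2 hAI hTB hEXT hINT K S' hS' (ι c) hc'
    refine ⟨N, hN, ?_⟩
    intro ℓ _ hℓ
    obtain ⟨b, hb, hj⟩ := h ℓ hℓ
    obtain ⟨τ₀, h0, h0c⟩ := hj 0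
    obtain ⟨τ₁, h1, h1c⟩ := hj 1
    obtain ⟨τ₂, h2, h2c⟩ := hj 2
    refine ⟨τ₀.comp ι, τ₁.comp ι, τ₂.comp ι, hgood ℓ τ₀ h0, hgood ℓ τ₁ h1, hgood ℓ τ₂ h2, ?_, ?_, ?_⟩
    · rw [RingHom.comp_apply, RingHom.comp_apply, h0c, h1c]
      exact fun h => absurd (hb h) (by norm_num)
    · rw [RingHom.comp_apply, RingHom.comp_apply, h1c, h2c]
      exact fun h => absurd (hb h) (by norm_num)
    · rw [RingHom.comp_apply, RingHom.comp_apply, h0c, h2c]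
      exact fun h => absurd (hb h) (by norm_num)
  · intro c hc
    have hc' : IsAlgebraic ℚ (ι c) :=
      (isAlgebraic_algebraMap_iff (R := ℚ) (S := K) (A := E) Subtype.val_injective).mp hc
    obtain ⟨N, hN, h⟩ := K_EMB_core1 hAI hTB hEXT hINT K S' hS' (ι c) hc'
    refine ⟨N, hN, ?_⟩
    intro ℓ _ hℓ γ hγ
    have hmin : minpoly ℚ (ι c) = minpoly ℚ (c : E) := IntermediateField.minpoly_eq (ι c)
    obtain ⟨τ, hτ, hτc⟩ := h ℓ hℓ γ (by rw [hmin]; exact hγ)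
    exact ⟨τ.comp ι, hgood ℓ τ hτ, hτc⟩

end Pool.Agent.PR
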