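import Pool.Agent.helper5.PR.SpecS

set_option autoImplicit false

namespace Pool.Agent.PR

open Matrix Kronecker

/-- the adjoint representation (Kronecker product of the standard and the dual representation) -/
noncomputable def S_ADJ_k (n : ℕ) (F : Type) [CommRing F] :
    SLZ n →* Matrix (Fin n × Fin n) (Fin n × Fin n) F where
  toFun γ := stdM F γ ⊗ₖ duM F γ
  map_one' := by rw [stdM_one, duM_one, Matrix.one_kronecker_one]
  map_mul' γ δ := by rw [stdM_mul, duM_mul, Matrix.mul_kronecker_mul]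

/-- the same over `Fin (n * n)` -/
noncomputable def S_ADJ_r (n : ℕ) (F : Type) [CommRing F] :
    SLZ n →* Matrix (Fin (n * n)) (Fin (n * n)) F :=
  ((Matrix.reindexAlgEquiv F F (finProdFinEquiv (m := n) (n := n))) : _ →* _).comp (S_ADJ_k n F)

theorem S_ADJ_r_apply (n : ℕ) (F : Type) [CommRing F] (γ : SLZ n) (i j k l : Fin n) :
    S_ADJ_r n F γ (finProdFinEquiv (i, j)) (finProdFinEquiv (k, l)) = stdM F γ i k * duM F γ j l := by
  show (stdM F γ ⊗ₖ duM F γ) (finProdFinEquiv.symm (finProdFinEquiv (i, j)))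
    (finProdFinEquiv.symm (finProdFinEquiv (k, l))) = _
  rw [Equiv.symm_apply_apply, Equiv.symm_apply_apply]
  rfl

/-- scalars are in the kernel -/
theorem S_ADJ_scalar (n : ℕ) (hn : 3 ≤ n) (F : Type) [Field F] (γ : SLZ n)
    (h1 : ∀ i j, i ≠ j → stdM F γ i j = 0) (h2 : ∀ i j, stdM F γ i i = stdM F γ j j) :
    S_ADJ_r n F γ = 1 := by
  let i0 : Fin n := ⟨0, by omega⟩
  have h3 : stdM F γ = (stdM F γ i0 i0) • (1 : Matrix (Fin n) (Fin n) F) := by
    ext i j
    by_cases hij : i = j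
    · subst hij
      rw [Matrix.smul_apply, Matrix.one_apply_eq, smul_eq_mul, mul_one]
      exact h2 _ _
    · rw [Matrix.smul_apply, Matrix.one_apply_ne hij, smul_zero]
      exact h1 _ _ hij
  set c : F := stdM F γ i0 i0 with hc
  have h4 : c • stdM F γ⁻¹ = 1 := by
    have := stdM_mul_inv F γ
    rw [h3, Matrix.smul_mul, one_mul] at this
    exact this
  have h5 : stdM F γ ⊗ₖ duM F γ = 1 := by
    rw [h3, Matrix.smul_kronecker, ← Matrix.kronecker_smul]
    unfold duM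
    rw [← Matrix.transpose_smul, h4, Matrix.transpose_one, Matrix.one_kronecker_one]
  show (Matrix.reindexAlgEquiv F F (finProdFinEquiv (m := n) (n := n))) (stdM F γ ⊗ₖ duM F γ) = 1
  rw [h5, map_one]

theorem S_ADJ_e01 (n : ℕ) (hn : 3 ≤ n) (F : Type) [CommRing F] (a : ℕ) :
    S_ADJ_r n F ((e01 n hn) ^ a) (finProdFinEquiv (⟨0, by omega⟩, ⟨0, by omega⟩))
      (finProdFinEquiv (⟨1, by omega⟩, ⟨0, by omega⟩)) = (a : F) := by
  rw [S_ADJ_r_apply]
  have h0 : (⟨0, by omega⟩ : Fin n) ≠ ⟨1, by omega⟩ := by simp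
  have h1 : (e01 n hn) ^ a = el ⟨0, by omega⟩ ⟨1, by omega⟩ h0 (a * 1) := by
    unfold e01
    rw [el_pow]
  have h2 : ((e01 n hn) ^ a)⁻¹ = el ⟨0, by omega⟩ ⟨1, by omega⟩ h0 (-(a * 1)) := by
    rw [h1, el_neg]
  unfold duM stdM
  rw [h2, h1, el_coe, el_coe]
  simp [Matrix.single_apply, Matrix.one_apply]

theorem S_ADJ (hSAND : S_SAND_stmt) : S_ADJ_stmt := by
  intro n hn Λ _ S M p hp hpl
  have : Fact p.Prime := ⟨hp⟩
  obtain ⟨-, hsc⟩ := hSAND n hn (Λ ⧸ M.toSubgroup) (S.g M)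
  have hker : (S.g M).ker ≤ ((S_ADJ_r n (ZMod p)).toHomUnits).ker := by
    intro γ hγ
    rw [MonoidHom.mem_ker] at hγ ⊢
    apply Units.ext
    show S_ADJ_r n (ZMod p) γ = 1
    have h1 := hsc γ hγ
    have hdvd : ∀ a : ℤ, ((orderOf (S.g M (e01 n hn)) : ℕ) : ℤ) ∣ a → (a : ZMod p) = 0 := by
      intro a ha
      rw [ZMod.intCast_zmod_eq_zero_iff_dvd]
      exact (Int.natCast_dvd_natCast.2 hpl).trans ha
    apply S_ADJ_scalar n hn
    · intro i j hij
      exact hdvd _ (h1.1 i j hij)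
    · intro i j
      rw [← sub_eq_zero]
      have h2 := hdvd _ (h1.2 i j)
      rw [Int.cast_sub] at h2
      exact h2
  let α' : Λ ⧸ M.toSubgroup →* GL (Fin (n * n)) (ZMod p) :=
    (S.g M).liftOfSurjective (S.surj M) ⟨(S_ADJ_r n (ZMod p)).toHomUnits, hker⟩
  have hα' : ∀ γ, (α' (S.g M γ) : Matrix (Fin (n * n)) (Fin (n * n)) (ZMod p)) = S_ADJ_r n (ZMod p) γ := by
    intro γ
    have := MonoidHom.liftOfRightInverse_comp_apply (S.g M) _
      (Function.rightInverse_surjInv (S.surj M)) ⟨(S_ADJ_r n (ZMod p)).toHomUnits, hker⟩ γ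
    exact congrArg Units.val this
  refine ⟨α'.comp (QuotientGroup.mk' M.toSubgroup), ?_⟩
  have hex : ∀ a : Fin p, ∃ l : Λ, (QuotientGroup.mk' M.toSubgroup) l = S.g M ((e01 n hn) ^ (a : ℕ)) :=
    fun a => QuotientGroup.mk'_surjective M.toSubgroup _
  choose l hl using hex
  have hinj : Function.Injective fun a : Fin p =>
      (⟨α'.comp (QuotientGroup.mk' M.toSubgroup) (l a), ⟨l a, rfl⟩⟩ :
        Set.range (α'.comp (QuotientGroup.mk' M.toSubgroup))) := by
    intro a b hab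
    have h1 := congrArg Subtype.val hab
    simp only [MonoidHom.comp_apply, hl] at h1
    have h2 := congrArg Units.val h1
    rw [hα', hα'] at h2
    have h3 := congrFun (congrFun h2 (finProdFinEquiv (⟨0, by omega⟩, ⟨0, by omega⟩)))
      (finProdFinEquiv (⟨1, by omega⟩, ⟨0, by omega⟩))
    rw [S_ADJ_e01, S_ADJ_e01] at h3
    apply Fin.ext
    have h4 := (ZMod.natCast_eq_natCast_iff _ _ _).1 h3
    exact Nat.ModEq.eq_of_lt_of_lt h4 a.2 b.2
  have h2 := Nat.card_le_card_of_injective _ hinj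
  rwa [Nat.card_eq_fintype_card, Fintype.card_fin] at h2

end Pool.Agent.PR
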