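import Pool.Agent.helper5.PR.SpecS
import Pool.Agent.helper45.PR.LKEY

set_option autoImplicit false

namespace Pool.Agent.PR

open Matrix

theorem S_DEN_mem (m : ℕ) (hm : 1 ≤ m) (x : ℚ) (hx : x ∈ ZI m) :
    ∃ (t : ℕ) (N : ℤ), (m : ℚ) ^ t * x = N := by
  have hm0 : (m : ℚ) ≠ 0 := by exact_mod_cast (by omega : m ≠ 0)
  induction hx using Algebra.adjoin_induction with
  | mem x hx =>
    refine ⟨1, 1, ?_⟩
    rw [Set.mem_singleton_iff.1 hx, pow_one, mul_inv_cancel₀ hm0, Int.cast_one]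
  | algebraMap r =>
    refine ⟨0, r, ?_⟩
    rw [pow_zero, one_mul]
    rfl
  | add x y _ _ hx hy =>
    obtain ⟨t, N, h1⟩ := hx
    obtain ⟨t', N', h2⟩ := hy
    refine ⟨t + t', (m : ℤ) ^ t' * N + (m : ℤ) ^ t * N', ?_⟩
    push_cast
    rw [← h1, ← h2, pow_add]
    ring
  | mul x y _ _ hx hy =>
    obtain ⟨t, N, h1⟩ := hx
    obtain ⟨t', N', h2⟩ := hy
    refine ⟨t + t', N * N', ?_⟩
    push_cast
    rw [← h1, ← h2, pow_add]
    ring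

theorem S_DEN_step (p : ℕ) [Fact p.Prime] (k m t : ℕ) (N g : ℤ) (x : ℚ) (C' G : ℤ_[p])
    (hC' : (C' : ℚ_[p]) = (x : ℚ_[p])) (hG : G = (g : ℤ_[p]))
    (hN : (m : ℚ) ^ t * (x - g) = N) (hw : (k : ℤ_[p]) ∣ C' - G) : (k : ℤ_[p]) ∣ (N : ℤ_[p]) := by
  obtain ⟨w, hw⟩ := hw
  refine ⟨(m : ℤ_[p]) ^ t * w, ?_⟩
  have h11 := congrArg (fun z : ℤ_[p] => (z : ℚ_[p])) hw
  simp only [PadicInt.coe_sub, PadicInt.coe_mul, PadicInt.coe_natCast] at h11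
  rw [hC', hG] at h11
  have h13 : (((m : ℚ) ^ t * (x - g) : ℚ) : ℚ_[p]) = ((N : ℚ) : ℚ_[p]) := by rw [hN]
  push_cast at h13 h11
  have h10 : ((N : ℤ_[p]) : ℚ_[p]) = (((k : ℤ_[p]) * ((m : ℤ_[p]) ^ t * w) : ℤ_[p]) : ℚ_[p]) := by
    push_cast
    rw [← h13, h11]
    ring
  exact Subtype.ext h10

theorem S_DEN (hJNT : S_JNT_stmt) (hLSA : LSA_stmt) : S_DEN_stmt := by
  intro n hn Λ _ hQ m hm R hR k hk hkm γ₀
  obtain ⟨S, X, Y, s, hXY, h1, h2⟩ := hJNT n hn Λ hQ m hm R hR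
  have hk0 : k ≠ 0 := by omega
  have hcard : Fintype.card (Fin n) ≠ 1 := by
    rw [Fintype.card_fin]; omega
  -- the matrices `D q`
  have hD : ∀ q : Nat.Primes, ∃ D : Matrix (Fin n) (Fin n) ℤ_[(q : ℕ)], D.det = 1 ∧
      X q * (if s q then D else (adjugate D)ᵀ) * Y q = stdM ℤ_[(q : ℕ)] γ₀ := by
    intro q
    have hB : (Y q * stdM ℤ_[(q : ℕ)] γ₀ * X q).det = 1 := by
      have h3 : (X q).det * (Y q).det = 1 := by
        rw [← Matrix.det_mul, (hXY q).1, Matrix.det_one]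
      rw [Matrix.det_mul, Matrix.det_mul, det_stdM, mul_one, mul_comm, h3]
    have hcancel : X q * (Y q * stdM ℤ_[(q : ℕ)] γ₀ * X q) * Y q = stdM ℤ_[(q : ℕ)] γ₀ := by
      calc X q * (Y q * stdM ℤ_[(q : ℕ)] γ₀ * X q) * Y q
          = (X q * Y q) * stdM ℤ_[(q : ℕ)] γ₀ * (X q * Y q) := by
            simp only [Matrix.mul_assoc]
        _ = stdM ℤ_[(q : ℕ)] γ₀ := by rw [(hXY q).1, Matrix.one_mul, Matrix.mul_one]
    by_cases hs : s q = true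
    · refine ⟨Y q * stdM ℤ_[(q : ℕ)] γ₀ * X q, hB, ?_⟩
      rw [if_pos hs]
      exact hcancel
    · refine ⟨(adjugate (Y q * stdM ℤ_[(q : ℕ)] γ₀ * X q))ᵀ, ?_, ?_⟩
      · rw [Matrix.det_transpose, Matrix.det_adjugate, hB, one_pow]
      · rw [if_neg hs, ← Matrix.adjugate_transpose, Matrix.transpose_transpose,
          Matrix.adjugate_adjugate _ hcard, hB, one_pow, one_smul]
        exact hcancel
  choose D hD1 hD2 using hD
  -- the integer matrix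
  have hC : ∀ i j : Fin n, ∃ z : ℤ, ∀ q : Nat.Primes,
      ((k : ℕ) : ℤ_[(q : ℕ)]) ∣ ((z : ℤ) : ℤ_[(q : ℕ)]) - D q i j := fun i j =>
    LKEY_approx k hk0 (fun q => D q i j)
  choose C hC using hC
  have hCD : ∀ q : Nat.Primes,
      MC k ((Matrix.of C).map (Int.castRingHom ℤ_[(q : ℕ)])) (D q) := by
    intro q i j
    have := hC i j q
    simpa using this
  have hdet : (k : ℤ) ∣ (Matrix.of C).det - 1 := by
    apply LKEY_dvd
    intro q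
    have h4 := LKEY_det k _ _ (hCD q)
    rw [hD1 q, ← RingHom.mapMatrix_apply, ← RingHom.map_det] at h4
    simpa using h4
  obtain ⟨γ, hγ⟩ := hLSA n k hk0 (Matrix.of C) hdet
  obtain ⟨l, _, hl⟩ := h2 γ ⟨⊤, inferInstance, inferInstance⟩ k hk hkm
  refine ⟨R l, ⟨l, rfl⟩, fun i j => ?_⟩
  have hmc : ∀ q : Nat.Primes, MC k (X q * sdM (s q) _ γ * Y q) (stdM ℤ_[(q : ℕ)] γ₀) := by
    intro q
    have h5 : MC k (stdM ℤ_[(q : ℕ)] γ) (D q) := by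
      rw [LKEY_mc]
      have h6 := (LKEY_mc k _ _).mp (LKEY_cast ℤ_[(q : ℕ)] k _ _ hγ)
      have h7 := (LKEY_mc k _ _).mp (hCD q)
      exact h6.trans h7
    rw [← hD2 q, LKEY_sdM]
    apply LKEY_mul k _ _ _ _ _ (LKEY_refl k _)
    apply LKEY_mul k _ _ _ _ (LKEY_refl k _)
    cases s q
    · exact LKEY_adj k _ _ h5
    · exact h5
  -- the difference
  have hdm : ratM (R l) i j - ((γ₀ : Matrix (Fin n) (Fin n) ℤ) i j : ℚ) ∈ ZI m := by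
    refine (ZI m).sub_mem ?_ ((ZI m).algebraMap_mem _)
    exact ((R l : Matrix (Fin n) (Fin n) (ZI m)) i j).2
  obtain ⟨t, N, hN⟩ := S_DEN_mem m hm _ hdm
  have hkN : (k : ℤ) ∣ N := by
    apply LKEY_dvd
    intro q
    by_cases hqk : (q : ℕ) ∣ k
    · obtain ⟨C', hC', hC2⟩ := hl q hqk
      have h9 : MC k C' (stdM ℤ_[(q : ℕ)] γ₀) := by
        rw [LKEY_mc]
        exact ((LKEY_mc k _ _).mp hC2).trans ((LKEY_mc k _ _).mp (hmc q))
      exact S_DEN_step q k m t N _ _ (C' i j) _ (hC' i j) rfl hN (h9 i j)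
    · have hu : IsUnit ((k : ℕ) : ℤ_[(q : ℕ)]) := by
        rw [PadicInt.isUnit_iff, PadicInt.norm_natCast_eq_one_iff]
        exact (Nat.Prime.coprime_iff_not_dvd q.2).2 hqk
      exact hu.dvd
  obtain ⟨c, hc⟩ := hkN
  have hm0 : (m : ℚ) ≠ 0 := by exact_mod_cast (by omega : m ≠ 0)
  have hmem : ((c : ℤ) : ℚ) * ((m : ℚ)⁻¹) ^ t ∈ ZI m :=
    (ZI m).mul_mem ((ZI m).algebraMap_mem _) ((ZI m).pow_mem (Algebra.subset_adjoin rfl) t)
  refine ⟨⟨_, hmem⟩, ?_⟩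
  show _ = (k : ℚ) * (((c : ℤ) : ℚ) * ((m : ℚ)⁻¹) ^ t)
  rw [hc] at hN
  push_cast at hN
  have h14 : ((k : ℚ) * (c : ℚ)) = (m : ℚ) ^ t *
      (ratM (R l) i j - ((γ₀ : Matrix (Fin n) (Fin n) ℤ) i j : ℚ)) := hN.symm
  rw [← mul_assoc, h14, inv_pow]
  field_simp

end Pool.Agent.PR
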