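import Pool.Agent.helper5.PR.SpecS

set_option autoImplicit false

namespace Pool.Agent.PR

open Matrix

theorem S_KER (hCMP : K_CMP_stmt) (hSPAN : S_SPAN_stmt) : S_KER_stmt := by
  intro n hn Λ _ hfg hq E E' _ _ _ _ ρ ρ' hρ hρ' l hl
  obtain ⟨t, ht, h2⟩ := hCMP n hn Λ hfg hq E E' ρ ρ' hρ hρ'
  have htl : ∀ μ, t (μ * l) = t μ := by
    intro μ
    have h3 : ((t (μ * l) : ℚ) : E) = ((t μ : ℚ) : E) := by
      rw [← ht, ← ht, map_mul, hl, mul_one]
    exact_mod_cast h3
  have htl' : ∀ μ, t (μ * l)⁻¹ = t μ⁻¹ := by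
    intro μ
    have h3 : ((t (μ * l)⁻¹ : ℚ) : E) = ((t μ⁻¹ : ℚ) : E) := by
      rw [← ht, ← ht, _root_.mul_inv_rev, map_mul, map_inv ρ l, hl, inv_one, one_mul]
    exact_mod_cast h3
  have htr : ∀ μ, ((ρ' μ : Matrix (Fin n) (Fin n) E') * ((ρ' l : Matrix (Fin n) (Fin n) E') - 1)).trace
      = 0 := by
    intro μ
    rw [mul_sub, mul_one, ← Units.val_mul, ← map_mul, Matrix.trace_sub, sub_eq_zero]
    rcases h2 with h2 | h2
    · rw [h2, h2, htl]
    · rw [h2, h2, htl']
  have hall : ∀ B : Matrix (Fin n) (Fin n) E', (B * ((ρ' l : Matrix (Fin n) (Fin n) E') - 1)).trace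
      = 0 := by
    intro B
    have hB : B ∈ Submodule.span E' (Set.range fun l => (ρ' l : Matrix (Fin n) (Fin n) E')) := by
      rw [hSPAN n hn Λ hfg hq E' ρ' hρ']; trivial
    induction hB using Submodule.span_induction with
    | mem B h => obtain ⟨μ, rfl⟩ := h; exact htr μ
    | zero => simp
    | add B C _ _ hB hC => rw [add_mul, Matrix.trace_add, hB, hC, add_zero]
    | smul c B _ hB => rw [smul_mul_assoc, Matrix.trace_smul, hB, smul_zero]
  have hz : (ρ' l : Matrix (Fin n) (Fin n) E') - 1 = 0 := by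
    ext i j
    have h3 := hall (Matrix.single j i 1)
    rw [Matrix.trace_single_mul, one_smul] at h3
    exact h3
  apply Units.ext
  rw [Units.val_one, ← sub_eq_zero, hz]

end Pool.Agent.PR
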