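import Pool.Agent.helper5.PR.SpecS

set_option autoImplicit false

namespace Pool.Agent.PR

open Matrix

theorem S_LAT_pid (hZI : S_ZI_stmt) (m : ℕ) (hm : 1 ≤ m) : IsPrincipalIdealRing (ZI m) := by
  refine ⟨fun I => ?_⟩
  obtain ⟨g, hg⟩ := (IsPrincipalIdealRing.principal (I.comap (algebraMap ℤ (ZI m)))).principal
  refine ⟨⟨algebraMap ℤ (ZI m) g, ?_⟩⟩
  apply le_antisymm
  · intro x hx
    obtain ⟨k, c, hk⟩ := (hZI m hm x.1).mp x.2
    have hmk : ((m : ℚ) ^ k) ≠ 0 := pow_ne_zero _ (by exact_mod_cast (by omega : m ≠ 0))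
    -- `m ^ k * x = x.num * c`
    have h1 : (m : ℚ) ^ k * x.1 = ((x.1.num * c : ℤ) : ℚ) := by
      have h2 : ((m : ℚ) ^ k) = (x.1.den : ℚ) * c := by exact_mod_cast hk
      rw [h2]
      push_cast
      rw [mul_right_comm, mul_comm (x.1.den : ℚ), Rat.mul_den_eq_num]
    have h3 : algebraMap ℤ (ZI m) (x.1.num * c) ∈ I := by
      have h4 : algebraMap ℤ (ZI m) (x.1.num * c) = (algebraMap ℤ (ZI m) ((m : ℤ) ^ k)) * x := by
        apply Subtype.ext
        show ((x.1.num * c : ℤ) : ℚ) = (((m : ℤ) ^ k : ℤ) : ℚ) * x.1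
        rw [← h1]
        push_cast
        rfl
      rw [h4]
      exact I.mul_mem_left _ hx
    have h5 : (x.1.num * c : ℤ) ∈ I.comap (algebraMap ℤ (ZI m)) := h3
    rw [hg, Ideal.submodule_span_eq, Ideal.mem_span_singleton] at h5
    obtain ⟨t, ht⟩ := h5
    rw [Ideal.submodule_span_eq, Ideal.mem_span_singleton]
    have hmem : (t : ℚ) / (m : ℚ) ^ k ∈ ZI m := by
      rw [div_eq_mul_inv, ← inv_pow]
      refine (ZI m).mul_mem ?_ ((ZI m).pow_mem (Algebra.subset_adjoin rfl) k)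
      exact (ZI m).algebraMap_mem t
    refine ⟨⟨_, hmem⟩, ?_⟩
    apply Subtype.ext
    show x.1 = (g : ℚ) * ((t : ℚ) / (m : ℚ) ^ k)
    rw [ht] at h1
    push_cast at h1
    field_simp
    linarith
  · rw [Ideal.submodule_span_eq, Ideal.span_singleton_le_iff_mem]
    have : g ∈ I.comap (algebraMap ℤ (ZI m)) := by
      rw [hg]
      exact Submodule.mem_span_singleton_self g
    exact this

theorem S_LAT_frac (m : ℕ) : IsFractionRing (ZI m) ℚ := by
  apply IsFractionRing.of_field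
  intro z
  refine ⟨algebraMap ℤ (ZI m) z.num, algebraMap ℤ (ZI m) z.den, ?_⟩
  show z = (z.num : ℚ) / ((z.den : ℤ) : ℚ)
  push_cast
  exact (Rat.num_div_den z).symm

theorem S_LAT_den {n : ℕ} {Λ : Type} [Group Λ] (m : ℕ) (r : Λ →* Matrix (Fin n) (Fin n) ℚ)
    (htr : ∀ l, (r l).trace ∈ ZI m) (A : Matrix (Fin n) (Fin n) ℚ)
    (hA : A ∈ Submodule.span ℚ (Set.range r)) :
    ∃ N : ℕ, N ≠ 0 ∧ ∀ l, (N : ℚ) * (A * r l).trace ∈ ZI m := by
  induction hA using Submodule.span_induction with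
  | mem A h =>
    obtain ⟨l', rfl⟩ := h
    refine ⟨1, one_ne_zero, fun l => ?_⟩
    rw [← map_mul, Nat.cast_one, one_mul]
    exact htr _
  | zero => exact ⟨1, one_ne_zero, fun l => by simp⟩
  | add A B _ _ ihA ihB =>
    obtain ⟨N1, h1, hN1⟩ := ihA
    obtain ⟨N2, h2, hN2⟩ := ihB
    refine ⟨N1 * N2, mul_ne_zero h1 h2, fun l => ?_⟩
    have h3 : ((N1 * N2 : ℕ) : ℚ) * ((A + B) * r l).trace
        = (N2 : ℚ) * ((N1 : ℚ) * (A * r l).trace) + (N1 : ℚ) * ((N2 : ℚ) * (B * r l).trace) := by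
      rw [add_mul, trace_add]
      push_cast
      ring
    rw [h3]
    refine (ZI m).add_mem ((ZI m).mul_mem ?_ (hN1 l)) ((ZI m).mul_mem ?_ (hN2 l))
    · exact (ZI m).natCast_mem N2
    · exact (ZI m).natCast_mem N1
  | smul c A _ ih =>
    obtain ⟨N1, h1, hN1⟩ := ih
    refine ⟨N1 * c.den, mul_ne_zero h1 c.den_nz, fun l => ?_⟩
    have h3 : (c.num : ℚ) = c * c.den := (Rat.mul_den_eq_num c).symm
    have h4 : ((N1 * c.den : ℕ) : ℚ) * ((c • A) * r l).trace
        = (c.num : ℚ) * ((N1 : ℚ) * (A * r l).trace) := by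
      rw [Matrix.smul_mul, trace_smul, h3, smul_eq_mul]
      push_cast
      ring
    rw [h4]
    exact (ZI m).mul_mem ((ZI m).intCast_mem _) (hN1 l)

theorem S_LAT_entry {n : ℕ} (B : Matrix (Fin n) (Fin n) ℚ) (i j : Fin n) :
    (Matrix.single j i (1 : ℚ) * B).trace = B i j := by
  rw [Matrix.trace]
  rw [Finset.sum_eq_single j]
  · simp [Matrix.diag_apply]
  · intro k _ hk
    simp [Matrix.diag_apply, hk]
  · intro h
    exact absurd (Finset.mem_univ _) h

theorem S_LAT_common {n : ℕ} {Λ : Type} [Group Λ] (m : ℕ) (r : Λ →* Matrix (Fin n) (Fin n) ℚ)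
    (hsp : Submodule.span ℚ (Set.range r) = ⊤) (htr : ∀ l, (r l).trace ∈ ZI m) :
    ∃ M : ℕ, M ≠ 0 ∧ ∀ l i j, (M : ℚ) * r l i j ∈ ZI m := by
  have h1 : ∀ i j : Fin n, ∃ N : ℕ, N ≠ 0 ∧ ∀ l, (N : ℚ) * r l i j ∈ ZI m := by
    intro i j
    obtain ⟨N, hN, h⟩ := S_LAT_den m r htr (Matrix.single j i 1) (by rw [hsp]; trivial)
    refine ⟨N, hN, fun l => ?_⟩
    have := h l
    rwa [S_LAT_entry] at this
  choose N hN h using h1
  refine ⟨∏ i, ∏ j, N i j, Finset.prod_ne_zero_iff.mpr fun i _ =>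
    Finset.prod_ne_zero_iff.mpr fun j _ => hN i j, ?_⟩
  intro l i j
  have ht := h i j l
  have hd : N i j ∣ ∏ i, ∏ j, N i j :=
    (Finset.dvd_prod_of_mem (fun j => N i j) (Finset.mem_univ j)).trans
      (Finset.dvd_prod_of_mem (fun i => ∏ j, N i j) (Finset.mem_univ i))
  obtain ⟨c, hc⟩ := hd
  rw [hc]
  have h4 : ((N i j * c : ℕ) : ℚ) * r l i j = (c : ℚ) * ((N i j : ℚ) * r l i j) := by
    push_cast
    ring
  rw [h4]
  exact (ZI m).mul_mem ((ZI m).natCast_mem c) ht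

/-- The lattice. -/
def S_LAT_L {n : ℕ} {Λ : Type} [Group Λ] (m : ℕ) (r : Λ →* Matrix (Fin n) (Fin n) ℚ) :
    Submodule (ZI m) (Fin n → ℚ) :=
  Submodule.span (ZI m) (Set.range fun p : Λ × Fin n => r p.1 *ᵥ Pi.single p.2 1)

theorem S_LAT_smul {n : ℕ} (m : ℕ) (c : ZI m) (v : Fin n → ℚ) : c • v = (c : ℚ) • v := by
  ext i
  rfl

theorem S_LAT_stable {n : ℕ} {Λ : Type} [Group Λ] (m : ℕ) (r : Λ →* Matrix (Fin n) (Fin n) ℚ) (l : Λ)
    (v : Fin n → ℚ) (hv : v ∈ S_LAT_L m r) : r l *ᵥ v ∈ S_LAT_L m r := by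
  unfold S_LAT_L at hv
  induction hv using Submodule.span_induction with
  | mem v h =>
    obtain ⟨⟨l', j⟩, rfl⟩ := h
    apply Submodule.subset_span
    refine ⟨(l * l', j), ?_⟩
    show r (l * l') *ᵥ Pi.single j 1 = r l *ᵥ (r l' *ᵥ Pi.single j 1)
    rw [map_mul, Matrix.mulVec_mulVec]
  | zero => rw [Matrix.mulVec_zero]; exact Submodule.zero_mem _
  | add u v _ _ hu hv => rw [Matrix.mulVec_add]; exact Submodule.add_mem _ hu hv
  | smul c u _ hu =>
    have : r l *ᵥ (c • u) = c • (r l *ᵥ u) := by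
      rw [S_LAT_smul, S_LAT_smul, Matrix.mulVec_smul]
    rw [this]
    exact Submodule.smul_mem _ _ hu

theorem S_LAT_single {n : ℕ} {Λ : Type} [Group Λ] (m : ℕ) (r : Λ →* Matrix (Fin n) (Fin n) ℚ)
    (j : Fin n) : (Pi.single j 1 : Fin n → ℚ) ∈ S_LAT_L m r := by
  apply Submodule.subset_span
  refine ⟨(1, j), ?_⟩
  show r 1 *ᵥ Pi.single j 1 = Pi.single j 1
  rw [map_one, Matrix.one_mulVec]

theorem S_LAT_fin {n : ℕ} {Λ : Type} [Group Λ] (m : ℕ) [IsPrincipalIdealRing (ZI m)]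
    (r : Λ →* Matrix (Fin n) (Fin n) ℚ)
    (hb : ∃ M : ℕ, M ≠ 0 ∧ ∀ l i j, (M : ℚ) * r l i j ∈ ZI m) :
    Module.Finite (ZI m) (S_LAT_L m r) := by
  obtain ⟨M, hM, h⟩ := hb
  have hMq : (M : ℚ) ≠ 0 := by exact_mod_cast hM
  set L' : Submodule (ZI m) (Fin n → ℚ) :=
    Submodule.span (ZI m) (Set.range fun i : Fin n => (Pi.single i (1 / (M : ℚ)) : Fin n → ℚ)) with hL'
  have hfg : L'.FG := Submodule.fg_span (Set.finite_range _)
  have : IsNoetherian (ZI m) L' := isNoetherian_of_fg_of_noetherian L' hfg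
  have hle : S_LAT_L m r ≤ L' := by
    unfold S_LAT_L
    rw [Submodule.span_le]
    rintro _ ⟨⟨l, j⟩, rfl⟩
    show r l *ᵥ Pi.single j 1 ∈ L'
    have h1 : r l *ᵥ Pi.single j 1 = ∑ i, (Pi.single i (r l i j) : Fin n → ℚ) := by
      rw [Finset.univ_sum_single]
      ext i
      simp
    rw [h1]
    refine Submodule.sum_mem _ fun i _ => ?_
    have ht := h l i j
    have h2 : (Pi.single i (r l i j) : Fin n → ℚ)
        = (⟨_, ht⟩ : ZI m) • (Pi.single i (1 / (M : ℚ)) : Fin n → ℚ) := by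
      rw [S_LAT_smul, ← Pi.single_smul]
      congr 1
      rw [smul_eq_mul]
      field_simp
    rw [h2]
    exact Submodule.smul_mem _ _ (Submodule.subset_span ⟨i, rfl⟩)
  have : IsNoetherian (ZI m) (S_LAT_L m r) := isNoetherian_of_le hle
  infer_instance

/-- The action on the lattice. -/
def S_LAT_rho {n : ℕ} {Λ : Type} [Group Λ] (m : ℕ) (r : Λ →* Matrix (Fin n) (Fin n) ℚ) :
    Λ →* Module.End (ZI m) (S_LAT_L m r) where
  toFun l :=
    { toFun := fun v => ⟨r l *ᵥ v.1, S_LAT_stable m r l v.1 v.2⟩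
      map_add' := fun u v => by
        apply Subtype.ext
        show r l *ᵥ (u.1 + v.1) = r l *ᵥ u.1 + r l *ᵥ v.1
        rw [Matrix.mulVec_add]
      map_smul' := fun c u => by
        apply Subtype.ext
        show r l *ᵥ (c • u.1) = c • (r l *ᵥ u.1)
        rw [S_LAT_smul, S_LAT_smul, Matrix.mulVec_smul] }
  map_one' := by
    ext v
    show (r 1 *ᵥ v.1) _ = v.1 _
    rw [map_one, Matrix.one_mulVec]
  map_mul' l l' := by
    ext v
    show (r (l * l') *ᵥ v.1) _ = (r l *ᵥ (r l' *ᵥ v.1)) _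
    rw [map_mul, Matrix.mulVec_mulVec]

/-- an invariant lattice for a group of matrices with bounded denominators -/
theorem S_LAT_gen (hZI : S_ZI_stmt) (n m : ℕ) (hm : 1 ≤ m) (Λ : Type) [Group Λ]
    (r : Λ →* Matrix (Fin n) (Fin n) ℚ) (hb : ∃ M : ℕ, M ≠ 0 ∧ ∀ l i j, (M : ℚ) * r l i j ∈ ZI m) :
    ∃ (x y : Matrix (Fin n) (Fin n) ℚ) (R : Λ →* Matrix (Fin n) (Fin n) (ZI m)), x * y = 1 ∧ y * x = 1 ∧
      ∀ l, r l = x * (R l).map (fun a => (a : ℚ)) * y := by
  have : IsPrincipalIdealRing (ZI m) := S_LAT_pid hZI m hm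
  have : IsFractionRing (ZI m) ℚ := S_LAT_frac m
  have := S_LAT_fin m r hb
  have : Module.Free (ZI m) (S_LAT_L m r) := Module.free_of_finite_type_torsion_free'
  let b0 := Module.finBasis (ZI m) (S_LAT_L m r)
  have hli : LinearIndependent ℚ (fun i => (b0 i : Fin n → ℚ)) := by
    rw [← LinearIndependent.iff_fractionRing (ZI m) ℚ]
    exact b0.linearIndependent.map' (S_LAT_L m r).subtype (Submodule.ker_subtype _)
  have hspan : ⊤ ≤ Submodule.span ℚ (Set.range fun i => (b0 i : Fin n → ℚ)) := by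
    have h1 : ∀ v ∈ S_LAT_L m r, v ∈ Submodule.span ℚ (Set.range fun i => (b0 i : Fin n → ℚ)) := by
      intro v hv
      have h2 := b0.sum_repr ⟨v, hv⟩
      have h3 := congrArg Subtype.val h2
      rw [Submodule.coe_sum] at h3
      rw [← show _ = v from h3]
      refine Submodule.sum_mem _ fun i _ => ?_
      rw [Submodule.coe_smul, S_LAT_smul]
      exact Submodule.smul_mem _ _ (Submodule.subset_span ⟨i, rfl⟩)
    intro v _
    have h4 : v = ∑ i, v i • (Pi.single i 1 : Fin n → ℚ) := by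
      ext k
      simp [Finset.sum_apply, Pi.single_apply]
    rw [h4]
    exact Submodule.sum_mem _ fun i _ => Submodule.smul_mem _ _ (h1 _ (S_LAT_single m r i))
  let B0 := Module.Basis.mk hli hspan
  have hcard : Module.finrank (ZI m) (S_LAT_L m r) = n := by
    have h1 := Module.finrank_eq_card_basis B0
    rw [Module.finrank_fin_fun, Fintype.card_fin] at h1
    exact h1.symm
  let b := b0.reindex (finCongr hcard)
  let B := B0.reindex (finCongr hcard)
  have hBb : ∀ i, B i = (b i : Fin n → ℚ) := by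
    intro i
    simp [B, b, B0]
  let x : Matrix (Fin n) (Fin n) ℚ := (Pi.basisFun ℚ (Fin n)).toMatrix B
  let y : Matrix (Fin n) (Fin n) ℚ := B.toMatrix (Pi.basisFun ℚ (Fin n))
  have hxy : x * y = 1 := Module.Basis.toMatrix_mul_toMatrix_flip _ _
  have hyx : y * x = 1 := Module.Basis.toMatrix_mul_toMatrix_flip _ _
  refine ⟨x, y, (LinearMap.toMatrixAlgEquiv b : Module.End (ZI m) (S_LAT_L m r) →* _).comp
    (S_LAT_rho m r), hxy, hyx, ?_⟩
  intro l
  have hx : ∀ i j, x i j = (b j : Fin n → ℚ) i := by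
    intro i j
    show (Pi.basisFun ℚ (Fin n)).toMatrix B i j = _
    rw [Module.Basis.toMatrix_apply, hBb]
    simp
  have key : r l * x = x * ((LinearMap.toMatrixAlgEquiv b (S_LAT_rho m r l)).map
      (fun a => (a : ℚ))) := by
    ext i j
    have h1 := b.sum_repr (S_LAT_rho m r l (b j))
    have h2 := congrFun (congrArg Subtype.val h1) i
    rw [Matrix.mul_apply, Matrix.mul_apply]
    have h3 : (S_LAT_rho m r l (b j)).val i = ∑ k, r l i k * x k j := by
      show (r l *ᵥ (b j).val) i = _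
      rw [Matrix.mulVec, dotProduct]
      exact Finset.sum_congr rfl fun k _ => by rw [hx]
    rw [← h3, ← h2, Submodule.coe_sum, Finset.sum_apply]
    refine Finset.sum_congr rfl fun k _ => ?_
    rw [Submodule.coe_smul, Pi.smul_apply, Matrix.map_apply, LinearMap.toMatrixAlgEquiv_apply, hx]
    show ((b.repr (S_LAT_rho m r l (b j)) k : ZI m) : ℚ) * _ = _
    rw [mul_comm]
  show r l = x * ((LinearMap.toMatrixAlgEquiv b (S_LAT_rho m r l)).map (fun a => (a : ℚ))) * y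
  rw [← key, mul_assoc, hxy, mul_one]

theorem S_LAT (hZI : S_ZI_stmt) : S_LAT_stmt := by
  intro n m hm Λ _ r hsp htr
  exact S_LAT_gen hZI n m hm Λ r (S_LAT_common m r hsp htr)

end Pool.Agent.PR
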