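import Pool.Agent.helper5.PR.SpecS

set_option autoImplicit false

namespace Pool.Agent.PR

open Matrix Filter

/-- the ideal of the ultrafilter -/
def S_ULT_I (p : ℕ → ℕ) : Ideal (∀ B, ZMod (p B)) where
  carrier := {x | ∀ᶠ B in (hyperfilter ℕ : Filter ℕ), x B = 0}
  add_mem' := by
    intro a b ha hb
    filter_upwards [ha, hb] with B h1 h2
    rw [Pi.add_apply, h1, h2, add_zero]
  zero_mem' := Eventually.of_forall fun _ => rfl
  smul_mem' := by
    intro c x hx
    filter_upwards [hx] with B h1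
    rw [smul_eq_mul, Pi.mul_apply, h1, mul_zero]

theorem S_ULT_mem (p : ℕ → ℕ) (x : ∀ B, ZMod (p B)) :
    x ∈ S_ULT_I p ↔ ∀ᶠ B in (hyperfilter ℕ : Filter ℕ), x B = 0 := Iff.rfl

theorem S_ULT_max (p : ℕ → ℕ) (hp : ∀ B, (p B).Prime) : (S_ULT_I p).IsMaximal := by
  rw [Ideal.isMaximal_iff]
  constructor
  · intro h
    rw [S_ULT_mem] at h
    have h2 : ∀ᶠ _ in (hyperfilter ℕ : Filter ℕ), False := by
      filter_upwards [h] with B hB
      haveI : Fact (p B).Prime := ⟨hp B⟩
      exact one_ne_zero hB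
    exact h2.exists.choose_spec
  · intro J x hJ hx hxJ
    rw [S_ULT_mem, ← Ultrafilter.eventually_not] at hx
    have hy : x * (fun B => (x B)⁻¹) - 1 ∈ S_ULT_I p := by
      rw [S_ULT_mem]
      filter_upwards [hx] with B hB
      haveI : Fact (p B).Prime := ⟨hp B⟩
      rw [Pi.sub_apply, Pi.mul_apply, Pi.one_apply]
      change x B * (x B)⁻¹ - 1 = 0
      rw [mul_inv_cancel₀ hB, sub_self]
    have h1 := J.mul_mem_right (fun B => (x B)⁻¹) hxJ
    have h2 := J.sub_mem h1 (hJ hy)
    rw [sub_sub_cancel] at h2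
    exact h2

theorem S_ULT : S_ULT_stmt := by
  intro N Λ _ hFG hyp
  choose p α hp hB hcard using hyp
  haveI hmax := S_ULT_max p hp
  let K : Type := (∀ B, ZMod (p B)) ⧸ S_ULT_I p
  letI : Field K := Ideal.Quotient.field (S_ULT_I p)
  have hzero : ∀ x : (∀ B, ZMod (p B)), (Ideal.Quotient.mk (S_ULT_I p) x = 0) ↔
      ∀ᶠ B in (hyperfilter ℕ : Filter ℕ), x B = 0 := fun x => Ideal.Quotient.eq_zero_iff_mem
  have hlarge : ∀ m : ℕ, ∀ᶠ B in (hyperfilter ℕ : Filter ℕ), m < B := fun m =>
    (Nat.hyperfilter_le_atTop) (eventually_gt_atTop m)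
  have hchar : CharZero K := by
    apply charZero_of_inj_zero
    intro n hn
    by_contra hne
    have h1 : Ideal.Quotient.mk (S_ULT_I p) (n : ∀ B, ZMod (p B)) = 0 := by
      rw [map_natCast]; exact hn
    rw [hzero] at h1
    have h2 : ∀ᶠ _ in (hyperfilter ℕ : Filter ℕ), False := by
      filter_upwards [h1, hlarge n] with B h3 h4
      rw [Pi.natCast_apply, ZMod.natCast_eq_zero_iff] at h3
      have h5 := Nat.le_of_dvd (Nat.pos_of_ne_zero hne) h3
      have h6 := hB B
      omega
    exact h2.exists.choose_spec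
  -- the product representation
  let f : Λ →* Matrix (Fin N) (Fin N) (∀ B, ZMod (p B)) :=
    { toFun := fun l => Matrix.of fun i j B => (α B l : Matrix (Fin N) (Fin N) (ZMod (p B))) i j
      map_one' := by
        ext i j B
        rw [Matrix.of_apply, map_one]
        by_cases h : i = j
        · subst h; simp
        · simp [Matrix.one_apply_ne h]
      map_mul' := by
        intro a b
        ext i j B
        rw [Matrix.of_apply, map_mul, Matrix.mul_apply, Finset.sum_apply]
        simp [Matrix.mul_apply] }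
  let ρ : Λ →* GL (Fin N) K :=
    (((Ideal.Quotient.mk (S_ULT_I p)).mapMatrix : Matrix (Fin N) (Fin N) (∀ B, ZMod (p B)) →+*
      Matrix (Fin N) (Fin N) K).toMonoidHom.comp f).toHomUnits
  refine ⟨K, inferInstance, hchar, ρ, ?_⟩
  intro hfin
  have hfin2 : Finite ρ.range := hfin.to_subtype
  have hidx : ρ.ker.index ≠ 0 := by
    rw [Subgroup.index_ker]
    exact Nat.card_pos.ne'
  haveI : Group.FG Λ := hFG
  haveI : ρ.ker.FiniteIndex := ⟨hidx⟩
  have hkfg : Group.FG ρ.ker := Subgroup.fg_of_index_ne_zero ρ.ker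
  obtain ⟨S, hS⟩ := (Group.fg_iff_subgroup_fg ρ.ker).mp hkfg
  have hone : ∀ l ∈ ρ.ker, ∀ᶠ B in (hyperfilter ℕ : Filter ℕ), α B l = 1 := by
    intro l hl
    have h1 : ρ l = 1 := hl
    have h2 : ∀ i j, ∀ᶠ B in (hyperfilter ℕ : Filter ℕ),
        (α B l : Matrix (Fin N) (Fin N) (ZMod (p B))) i j =
          (1 : Matrix (Fin N) (Fin N) (ZMod (p B))) i j := by
      intro i j
      have h3 : (ρ l : Matrix (Fin N) (Fin N) K) i j = (1 : Matrix (Fin N) (Fin N) K) i j := by
        rw [h1]; rfl
      have h4 : (ρ l : Matrix (Fin N) (Fin N) K) i j = Ideal.Quotient.mk (S_ULT_I p) (f l i j) := rfl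
      have h5 : (1 : Matrix (Fin N) (Fin N) K) i j = Ideal.Quotient.mk (S_ULT_I p)
          ((1 : Matrix (Fin N) (Fin N) (∀ B, ZMod (p B))) i j) := by
        by_cases h : i = j
        · subst h; simp
        · simp [Matrix.one_apply_ne h]
      rw [h4, h5, ← sub_eq_zero, ← map_sub, hzero] at h3
      filter_upwards [h3] with B h6
      rw [Pi.sub_apply, sub_eq_zero] at h6
      have h7 : f l i j B = (α B l : Matrix (Fin N) (Fin N) (ZMod (p B))) i j := rfl
      rw [← h7, h6]
      by_cases h : i = j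
      · subst h; simp
      · simp [Matrix.one_apply_ne h]
    have h3 : ∀ᶠ B in (hyperfilter ℕ : Filter ℕ), ∀ i j,
        (α B l : Matrix (Fin N) (Fin N) (ZMod (p B))) i j =
          (1 : Matrix (Fin N) (Fin N) (ZMod (p B))) i j := by
      rw [eventually_all]
      intro i
      rw [eventually_all]
      intro j
      exact h2 i j
    filter_upwards [h3] with B h4
    apply Units.ext
    ext i j
    exact h4 i j
  have hall : ∀ᶠ B in (hyperfilter ℕ : Filter ℕ), ∀ l ∈ S, α B l = 1 := by
    rw [eventually_all_finset]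
    intro l hl
    apply hone
    rw [← hS]
    exact Subgroup.subset_closure hl
  have hfalse : ∀ᶠ _ in (hyperfilter ℕ : Filter ℕ), False := by
    filter_upwards [hall, hlarge ρ.ker.index] with B h1 h2
    have h3 : ρ.ker ≤ (α B).ker := by
      rw [← hS, Subgroup.closure_le]
      intro l hl
      exact h1 l hl
    have h4 : (α B).ker.index ≤ ρ.ker.index := Subgroup.index_antitone h3
    have h5 : Nat.card (Set.range (α B)) = (α B).ker.index := by
      rw [Subgroup.index_ker]; rfl
    have h6 := hcard B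
    omega
  exact hfalse.exists.choose_spec

end Pool.Agent.PR
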