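import Pool.Agent.helper8.PR.S_LAT

set_option autoImplicit false

namespace Pool.Agent.PR

open Matrix

theorem S_UNB_mem (hZI : S_ZI_stmt) (m : ℕ) (hm : 1 ≤ m) (q : ℕ) (hq : q.Prime) (e m' : ℕ)
    (hm' : m = q ^ e * m') (hqm : ¬ q ∣ m') (r : ℕ) (x : ℚ) (hx : x ∈ ZI m)
    (hr : ¬ q ^ r ∣ x.den) : (q ^ r : ℚ) * x ∈ ZI m' := by
  obtain ⟨k, hk⟩ := (hZI m hm x).mp hx
  obtain ⟨a, d, hd, hxd⟩ := Nat.exists_eq_pow_mul_and_not_dvd x.den_nz q hq.ne_one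
  have har : a ≤ r := by
    by_contra hcon
    push Not at hcon
    apply hr
    rw [hxd]
    exact Dvd.dvd.mul_right (pow_dvd_pow q hcon.le) d
  have hdk : d ∣ m' ^ k := by
    have h1 : d ∣ q ^ (e * k) * m' ^ k := by
      rw [pow_mul, ← mul_pow, ← hm']
      exact (Dvd.intro_left _ hxd.symm).trans hk
    exact (Nat.Coprime.dvd_mul_left ((Nat.Prime.coprime_iff_not_dvd hq).mpr hd |>.symm.pow_right _)).mp h1
  obtain ⟨c, hc⟩ := hdk
  have hm0 : m' ≠ 0 := by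
    rintro rfl
    exact hqm (dvd_zero q)
  have hmq : ((m' : ℚ)) ≠ 0 := by exact_mod_cast hm0
  have hd0 : (d : ℚ) ≠ 0 := by
    have : d ≠ 0 := by
      rintro rfl
      exact hd (dvd_zero q)
    exact_mod_cast this
  have hq0 : (q : ℚ) ≠ 0 := by exact_mod_cast hq.ne_zero
  have h1 : x = x.num / ((q : ℚ) ^ a * d) := by
    have h2 : ((x.den : ℕ) : ℚ) = (q : ℚ) ^ a * d := by
      rw [hxd]
      push_cast
      rfl
    rw [← h2]
    exact (Rat.num_div_den x).symm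
  have h3 : (q ^ r : ℚ) * x = (((q : ℤ) ^ (r - a) * x.num * c : ℤ) : ℚ) * ((m' : ℚ)⁻¹) ^ k := by
    have h4 : (m' : ℚ) ^ k = d * c := by exact_mod_cast hc
    have h5 : (q : ℚ) ^ r = (q : ℚ) ^ (r - a) * (q : ℚ) ^ a := by
      rw [← pow_add]
      congr 1
      omega
    have hc0 : (c : ℚ) ≠ 0 := by
      intro h
      rw [h, mul_zero] at h4
      exact pow_ne_zero k hmq h4
    rw [inv_pow, h4, h5]
    nth_rewrite 1 [h1]
    push_cast
    field_simp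
  rw [h3]
  exact (ZI m').mul_mem ((ZI m').algebraMap_mem _) ((ZI m').pow_mem (Algebra.subset_adjoin rfl) k)

theorem S_UNB (hZI : S_ZI_stmt) : S_UNB_stmt := by
  intro n m hm Δ q hq hx r
  by_contra hcon
  push Not at hcon
  obtain ⟨x, hxΔ, hxq⟩ := hx
  obtain ⟨e, m', hqm, hm'⟩ := Nat.exists_eq_pow_mul_and_not_dvd (by omega : m ≠ 0) q hq.ne_one
  have hm'1 : 1 ≤ m' := by
    rcases Nat.eq_zero_or_pos m' with h | h
    · subst h
      exact absurd (dvd_zero q) hqm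
    · exact h
  let ρ : Δ →* Matrix (Fin n) (Fin n) ℚ :=
    { toFun := fun y => ratM y.1
      map_one' := by
        show (1 : Matrix (Fin n) (Fin n) (ZI m)).map (fun a => (a : ℚ)) = 1
        exact Matrix.map_one _ rfl rfl
      map_mul' := by
        intro y z
        exact Matrix.map_mul (f := (ZI m).val) }
  have hb : ∃ M : ℕ, M ≠ 0 ∧ ∀ l i j, (M : ℚ) * ρ l i j ∈ ZI m' := by
    refine ⟨q ^ r, pow_ne_zero _ hq.ne_zero, fun l i j => ?_⟩
    have h1 : ρ l i j ∈ ZI m := (l.1.1 i j).2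
    have h2 := S_UNB_mem hZI m hm q hq e m' hm' hqm r (ρ l i j) h1 (hcon l.1 l.2 i j)
    push_cast
    exact h2
  obtain ⟨X, Y, R, hXY, hYX, hR⟩ := S_LAT_gen hZI n m' hm'1 Δ ρ hb
  have h3 : (ratM x).trace ∈ ZI m' := by
    have h4 : ratM x = X * (R ⟨x, hxΔ⟩).map (fun a => (a : ℚ)) * Y := hR ⟨x, hxΔ⟩
    rw [h4, mul_assoc, Matrix.trace_mul_comm, mul_assoc, hYX, mul_one]
    refine (ZI m').sum_mem fun i _ => ?_
    exact (R ⟨x, hxΔ⟩ i i).2
  obtain ⟨k, hk⟩ := (hZI m' hm'1 _).mp h3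
  exact hqm (hq.dvd_of_dvd_pow (hxq.trans hk))

end Pool.Agent.PR
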