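import Pool.Agent.helper5.PR.SpecX

set_option autoImplicit false

namespace Pool.Agent.PR

open Matrix

theorem X_FQ_red {n : ℕ} (k : ℕ) (γ : SLZ n) : redZ n k γ = 1 ↔
    ∀ i j, (k : ℤ) ∣ (γ : Matrix (Fin n) (Fin n) ℤ) i j - (1 : Matrix (Fin n) (Fin n) ℤ) i j := by
  have h0 : ∀ i j, ((1 : SLd n k) : Matrix (Fin n) (Fin n) (ZMod k)) i j =
      (((1 : Matrix (Fin n) (Fin n) ℤ) i j : ℤ) : ZMod k) := by
    intro i j
    change (1 : Matrix (Fin n) (Fin n) (ZMod k)) i j = _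
    rw [Matrix.one_apply, Matrix.one_apply]
    split_ifs <;> simp
  have h1 : ∀ i j, (redZ n k γ : Matrix (Fin n) (Fin n) (ZMod k)) i j =
      (((γ : Matrix (Fin n) (Fin n) ℤ) i j : ℤ) : ZMod k) := fun i j => rfl
  constructor
  · intro h i j
    have h2 : (redZ n k γ : Matrix (Fin n) (Fin n) (ZMod k)) i j =
        ((1 : SLd n k) : Matrix (Fin n) (Fin n) (ZMod k)) i j := by rw [h]
    rw [h1, h0] at h2
    exact (ZMod.intCast_eq_intCast_iff_dvd_sub _ _ _).1 h2.symm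
  · intro h
    ext i j
    rw [h1, h0]
    exact ((ZMod.intCast_eq_intCast_iff_dvd_sub _ _ _).2 (h i j)).symm

theorem X_FQ_mul {n : ℕ} {j k : ℕ} {γ : SLZ n} (h : redZ n (k * j) γ = 1) :
    redZ n k γ = 1 ∧ redZ n j γ = 1 := by
  rw [X_FQ_red] at h
  constructor
  · rw [X_FQ_red]
    intro a b
    refine dvd_trans ?_ (h a b)
    push_cast
    exact dvd_mul_right _ _
  · rw [X_FQ_red]
    intro a b
    refine dvd_trans ?_ (h a b)
    push_cast
    exact dvd_mul_left _ _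

/-- X-FQ -/
theorem X_FQ (hCSI : X_CSI_stmt) (hCRT : X_CRT_stmt) (hRSJ : X_RSJ_stmt) (_hRED : X_RED_stmt)
    (hSAND : S_SAND_stmt) : X_FQ_stmt := by
  intro n hn Λ _ hrf m hm R hR hfin S d hlev hc1 hc2
  classical
  obtain ⟨hd, hdm, hl3, M₁, hl4⟩ := hlev
  -- a small finite index normal subgroup
  have hFfin : (R.ker : Set Λ).Finite := Set.toFinite _
  have hM : ∃ M : FiniteIndexNormalSubgroup Λ, M ≤ M₁ ∧ ∀ f ∈ R.ker, f ∈ M.toSubgroup → f = 1 := by
    have key : ∀ s : Finset Λ, (∀ g ∈ s, g ≠ 1) → ∃ M : FiniteIndexNormalSubgroup Λ, M ≤ M₁ ∧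
        ∀ g ∈ s, g ∉ M.toSubgroup := by
      intro s
      induction s using Finset.induction_on with
      | empty => exact fun _ => ⟨M₁, le_rfl, fun g hg => absurd hg (Finset.notMem_empty g)⟩
      | insert a s _ ih =>
        intro hs
        obtain ⟨M, hM1, hM⟩ := ih fun g hg => hs g (Finset.mem_insert_of_mem hg)
        obtain ⟨H, hH, haH⟩ := hrf a (hs a (Finset.mem_insert_self a s))
        have : H.FiniteIndex := ⟨hH⟩
        let N : FiniteIndexNormalSubgroup Λ := ⟨H.normalCore, inferInstance, inferInstance⟩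
        refine ⟨M ⊓ N, le_trans inf_le_left hM1, fun g hg => ?_⟩
        rcases Finset.mem_insert.1 hg with rfl | hg
        · intro hmem
          exact haH (H.normalCore_le (show g ∈ H.normalCore from hmem.2))
        · intro hmem
          exact hM g hg hmem.1
    obtain ⟨M, hM1, hM2⟩ := key (hFfin.toFinset.erase 1) (fun g hg => Finset.ne_of_mem_erase hg)
    refine ⟨M, hM1, fun f hf hfM => ?_⟩
    by_contra hne
    exact hM2 f (Finset.mem_erase.2 ⟨hne, hFfin.mem_toFinset.2 hf⟩) hfM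
  obtain ⟨M, hMM₁, hMF⟩ := hM
  obtain ⟨j, hj1, hjm, hjd⟩ := hl3 M
  have hdL : d ∣ lev hn S M := hl4 M hMM₁
  have hcopm : ∀ k : ℕ, k.Coprime m → k.Coprime d := by
    intro k hk
    rw [Nat.coprime_iff_gcd_eq_one] at hk ⊢
    by_contra hne
    obtain ⟨q, hq, hqd⟩ := Nat.exists_prime_and_dvd hne
    have h1 : q ∣ k := dvd_trans hqd (Nat.gcd_dvd_left k d)
    have h2 : q ∣ d := dvd_trans hqd (Nat.gcd_dvd_right k d)
    have h3 : q ∣ Nat.gcd k m := Nat.dvd_gcd h1 (hdm q hq h2)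
    rw [hk] at h3
    exact hq.one_lt.ne' (Nat.dvd_one.1 h3)
  have hjd' : j.Coprime d := hcopm j hjm
  have hs1 := (hSAND n hn (Λ ⧸ M.toSubgroup) (S.g M)).1
  have hs2 := (hSAND n hn (Λ ⧸ M.toSubgroup) (S.g M)).2
  -- (K1)
  have K1 : ∀ γ : SLZ n, redZ n j γ = 1 → redZ n d γ = 1 → S.g M γ = 1 := by
    intro γ h1 h2
    apply hs1
    intro a b
    rw [X_FQ_red] at h1 h2
    have h3 : IsCoprime (j : ℤ) (d : ℤ) := Nat.isCoprime_iff_coprime.2 hjd'
    have h4 := h3.mul_dvd (h1 a b) (h2 a b)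
    refine dvd_trans ?_ h4
    have h5 : ((lev hn S M : ℕ) : ℤ) ∣ ((j * d : ℕ) : ℤ) := Int.natCast_dvd_natCast.2 hjd
    rw [Nat.cast_mul] at h5
    exact h5
  -- (K2)
  have K2 : ∀ f ∈ R.ker, ∃ γ : SLZ n, S.g M γ = (f : Λ ⧸ M.toSubgroup) ∧ redZ n j γ = 1 := by
    intro f hf
    obtain ⟨γ, h1, h2⟩ := hc1 f M j hj1 hjm
    refine ⟨γ, h1, h2.1 ?_⟩
    rw [MonoidHom.mem_ker.1 hf]
    intro a b
    refine ⟨0, ?_⟩
    have h3 : ratM (1 : SLI n m) a b = (1 : Matrix (Fin n) (Fin n) ℚ) a b := by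
      change (((1 : Matrix (Fin n) (Fin n) (ZI m)) a b : ZI m) : ℚ) = _
      rw [Matrix.one_apply, Matrix.one_apply]
      split_ifs <;> simp
    rw [h3]
    simp
  -- (K3)
  have K3 : ∀ γ : SLZ n, redZ n j γ = 1 → ∃ f ∈ R.ker, S.g M γ = (f : Λ ⧸ M.toSubgroup) := by
    intro γ hγ
    let N : Subgroup (SLI n m) := M.toSubgroup.map R
    have hN : N.Normal := Subgroup.Normal.map inferInstance R hR
    have hNf : N.FiniteIndex := by
      constructor
      have h1 : (M.toSubgroup.map R).index ∣ M.toSubgroup.index :=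
        Subgroup.index_map_dvd M.toSubgroup hR
      intro h0
      have h2 : (M.toSubgroup.map R).index = 0 := h0
      rw [h2, zero_dvd_iff] at h1
      exact Subgroup.FiniteIndex.index_ne_zero (H := M.toSubgroup) h1
    obtain ⟨k, hk1, hkm, hk2, -⟩ := hCSI n hn m hm (SLI n m ⧸ N) (QuotientGroup.mk' N)
    obtain ⟨γ₁, h1, h2⟩ := hCRT n (k * j) d (Nat.mul_pos hk1 hj1) hd
      (Nat.Coprime.mul_left (hcopm k hkm) hjd') 1 γ
    rw [map_one] at h1
    obtain ⟨h3, h4⟩ := X_FQ_mul h1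
    obtain ⟨l, h5, h6⟩ := hc2 γ₁ M k hk1 hkm
    have h7 : R l ∈ N := by
      have := hk2 (R l) (h6.2 h3)
      exact (QuotientGroup.eq_one_iff _).1 this
    obtain ⟨m', hm', hm'R⟩ := h7
    refine ⟨l * m'⁻¹, ?_, ?_⟩
    · rw [MonoidHom.mem_ker, map_mul, map_inv, hm'R, mul_inv_cancel]
    · have h8 : S.g M γ₁ = S.g M γ := by
        have h9 : S.g M (γ₁ * γ⁻¹) = 1 := by
          apply K1
          · rw [map_mul, map_inv, h4, hγ, inv_one, mul_one]
          · rw [map_mul, map_inv, h2, mul_inv_cancel]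
        rw [map_mul, map_inv] at h9
        exact mul_inv_eq_one.1 h9
      rw [← h8, h5]
      apply QuotientGroup.eq.2
      rw [inv_mul_cancel_left]
      exact M.toSubgroup.inv_mem hm'
  -- the graph of t
  let P : SLd n d → Λ → Prop := fun c f => f ∈ R.ker ∧
    ∃ γ : SLZ n, redZ n j γ = 1 ∧ redZ n d γ = c ∧ S.g M γ = (f : Λ ⧸ M.toSubgroup)
  have hPex : ∀ c, ∃ f, P c f := by
    intro c
    obtain ⟨γ₀, hγ₀⟩ := hRSJ n d hd c
    obtain ⟨γ, h1, h2⟩ := hCRT n j d hj1 hd hjd' 1 γ₀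
    rw [map_one] at h1
    obtain ⟨f, hf, hf2⟩ := K3 γ h1
    exact ⟨f, hf, γ, h1, h2.trans hγ₀, hf2⟩
  have hPun : ∀ c f f', P c f → P c f' → f = f' := by
    rintro c f f' ⟨hf, γ, h1, h2, h3⟩ ⟨hf', γ', h1', h2', h3'⟩
    have h4 : S.g M (γ⁻¹ * γ') = 1 := by
      apply K1
      · rw [map_mul, map_inv, h1, h1', inv_one, mul_one]
      · rw [map_mul, map_inv, h2, h2', inv_mul_cancel]
    rw [map_mul, map_inv, h3, h3'] at h4
    have h5 : f⁻¹ * f' ∈ M.toSubgroup := (QuotientGroup.eq_one_iff _).1 h4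
    have h6 := hMF _ (R.ker.mul_mem (R.ker.inv_mem hf) hf') h5
    exact inv_mul_eq_one.1 h6
  have hPmul : ∀ c c' f f', P c f → P c' f' → P (c * c') (f * f') := by
    rintro c c' f f' ⟨hf, γ, h1, h2, h3⟩ ⟨hf', γ', h1', h2', h3'⟩
    refine ⟨R.ker.mul_mem hf hf', γ * γ', ?_, ?_, ?_⟩
    · rw [map_mul, h1, h1', mul_one]
    · rw [map_mul, h2, h2']
    · rw [map_mul, h3, h3']
      rfl
  choose t ht using hPex
  let T : SLd n d →* Λ := MonoidHom.mk' t fun c c' =>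
    hPun _ _ _ (ht (c * c')) (hPmul _ _ _ _ (ht c) (ht c'))
  have hT : ∀ c, T c = t c := fun c => rfl
  refine ⟨T, ?_, ?_⟩
  · apply le_antisymm
    · rintro _ ⟨c, rfl⟩
      rw [hT]
      exact (ht c).1
    · intro f hf
      obtain ⟨γ, h1, h2⟩ := K2 f hf
      refine ⟨redZ n d γ, ?_⟩
      rw [hT]
      exact hPun _ _ _ (ht _) ⟨hf, γ, h2, rfl, h1⟩
  · intro c hc
    rw [MonoidHom.mem_ker, hT] at hc
    obtain ⟨-, γ, h1, h2, h3⟩ := ht c
    rw [hc] at h3
    obtain ⟨h4, h5⟩ := hs2 γ h3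
    have hdz : (d : ℤ) ∣ ((lev hn S M : ℕ) : ℤ) := Int.natCast_dvd_natCast.2 hdL
    have h6 : ∀ a b, a ≠ b → (c : Matrix (Fin n) (Fin n) (ZMod d)) a b = 0 := by
      intro a b hab
      rw [← h2]
      change ((((γ : Matrix (Fin n) (Fin n) ℤ) a b : ℤ)) : ZMod d) = 0
      exact (ZMod.intCast_zmod_eq_zero_iff_dvd _ _).2 (dvd_trans hdz (h4 a b hab))
    have h7 : ∀ a b, (c : Matrix (Fin n) (Fin n) (ZMod d)) a a =
        (c : Matrix (Fin n) (Fin n) (ZMod d)) b b := by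
      intro a b
      rw [← h2]
      change ((((γ : Matrix (Fin n) (Fin n) ℤ) a a : ℤ)) : ZMod d) =
        ((((γ : Matrix (Fin n) (Fin n) ℤ) b b : ℤ)) : ZMod d)
      exact (ZMod.intCast_eq_intCast_iff_dvd_sub _ _ _).2 (dvd_trans hdz (h5 b a))
    have h8 : (c : Matrix (Fin n) (Fin n) (ZMod d)) =
        Matrix.scalar (Fin n) ((c : Matrix (Fin n) (Fin n) (ZMod d)) ⟨0, by omega⟩ ⟨0, by omega⟩) := by
      ext a b
      rw [Matrix.scalar_apply, Matrix.diagonal_apply]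
      by_cases hab : a = b
      · subst hab
        rw [if_pos rfl]
        exact h7 _ _
      · rw [if_neg hab]
        exact h6 a b hab
    rw [Subgroup.mem_center_iff]
    intro g
    apply Subtype.ext
    change (g : Matrix (Fin n) (Fin n) (ZMod d)) * (c : Matrix (Fin n) (Fin n) (ZMod d)) =
      (c : Matrix (Fin n) (Fin n) (ZMod d)) * (g : Matrix (Fin n) (Fin n) (ZMod d))
    rw [h8]
    exact ((Matrix.scalar_commute _ (fun _ => Commute.all _ _) _).eq).symm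

end Pool.Agent.PR
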