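import Pool.Agent.helper5.PR.SpecY

set_option autoImplicit false

namespace Pool.Agent.PR

open Matrix Module

/-- the twisted operators -/
theorem Y_GLU_sigma (K V : Type) [Field K] [AddCommGroup V] [Module K V] (Q : Type) [Group Q]
    (ρ : Q →* Module.End K V) (W₁ W₂ : Submodule K V) (hc : IsCompl W₁ W₂) (h1 : InvS ρ W₁)
    (h2 : InvS ρ W₂) (χ₁ χ₂ θ : Q →* Kˣ) : ∃ σ : Q →* Module.End K V,
      (∀ g, ∀ w ∈ W₁, σ g w = ((θ g : K) * ((χ₁ g)⁻¹ : Kˣ)) • ρ g w) ∧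
      (∀ g, ∀ w ∈ W₂, σ g w = ((θ g : K) * ((χ₂ g)⁻¹ : Kˣ)) • ρ g w) := by
  have e1 : ∀ w ∈ W₁, W₁.projection W₂ hc w = w := fun w hw =>
    Submodule.projection_apply_of_mem_left hc hw
  have e2 : ∀ w ∈ W₂, W₁.projection W₂ hc w = 0 := fun w hw =>
    Submodule.projection_apply_of_mem_right hc hw
  set e := W₁.projection W₂ hc with he
  let s : Q → Module.End K V := fun g => ((θ g : K) * ((χ₁ g)⁻¹ : Kˣ)) • (ρ g * e) +
    ((θ g : K) * ((χ₂ g)⁻¹ : Kˣ)) • (ρ g * (1 - e))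
  have s1 : ∀ g, ∀ w ∈ W₁, s g w = ((θ g : K) * ((χ₁ g)⁻¹ : Kˣ)) • ρ g w := by
    intro g w hw
    simp only [s, LinearMap.add_apply, LinearMap.smul_apply, Module.End.mul_apply,
      LinearMap.sub_apply, Module.End.one_apply, e1 w hw, sub_self, map_zero, smul_zero, add_zero]
  have s2 : ∀ g, ∀ w ∈ W₂, s g w = ((θ g : K) * ((χ₂ g)⁻¹ : Kˣ)) • ρ g w := by
    intro g w hw
    simp only [s, LinearMap.add_apply, LinearMap.smul_apply, Module.End.mul_apply,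
      LinearMap.sub_apply, Module.End.one_apply, e2 w hw, sub_zero, map_zero, smul_zero, zero_add]
  have hdec : ∀ v : V, ∃ w₁ ∈ W₁, ∃ w₂ ∈ W₂, w₁ + w₂ = v := by
    intro v
    have hv : v ∈ W₁ ⊔ W₂ := by rw [hc.sup_eq_top]; exact Submodule.mem_top
    exact Submodule.mem_sup.1 hv
  refine ⟨⟨⟨s, ?_⟩, ?_⟩, s1, s2⟩
  · refine LinearMap.ext fun v => ?_
    obtain ⟨w₁, hw₁, w₂, hw₂, rfl⟩ := hdec v
    rw [map_add, s1 1 w₁ hw₁, s2 1 w₂ hw₂]
    simp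
  · intro g h
    dsimp only
    refine LinearMap.ext fun v => ?_
    obtain ⟨w₁, hw₁, w₂, hw₂, rfl⟩ := hdec v
    rw [map_add, map_add, Module.End.mul_apply, Module.End.mul_apply, s1 _ w₁ hw₁, s2 _ w₂ hw₂,
      s1 h w₁ hw₁, s2 h w₂ hw₂, map_smul, map_smul, s1 g _ (h1 h w₁ hw₁), s2 g _ (h2 h w₂ hw₂),
      smul_smul, smul_smul]
    simp only [map_mul, mul_inv, Units.val_mul, Module.End.mul_apply]
    congr 2 <;> ring

/-- Y-GLU -/
theorem Y_GLU : Y_GLU_stmt := by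
  intro K V _ _ _ _ Q _ ρ W₁ W₂ hc h1 h2 v₁ v₂ χ₁ χ₂ θ hv₁ hv₂ hv₁0 hv₂0 hχ₁ hχ₂ hker
  obtain ⟨σ, s1, s2⟩ := Y_GLU_sigma K V Q ρ W₁ W₂ hc h1 h2 χ₁ χ₂ θ
  set L : Submodule K V := K ∙ (v₁ - v₂) with hL
  have hne : v₁ - v₂ ≠ 0 := by
    intro h0
    have h3 : v₁ = v₂ := sub_eq_zero.1 h0
    have h4 : v₁ ∈ W₁ ⊓ W₂ := ⟨hv₁, h3 ▸ hv₂⟩
    rw [hc.inf_eq_bot] at h4
    exact hv₁0 ((Submodule.mem_bot K).1 h4)
  have hσv : ∀ g, σ g (v₁ - v₂) = (θ g : K) • (v₁ - v₂) := by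
    intro g
    rw [map_sub, s1 g v₁ hv₁, s2 g v₂ hv₂, hχ₁, hχ₂, smul_smul, smul_smul, mul_assoc, mul_assoc,
      Units.inv_mul, Units.inv_mul, mul_one, smul_sub]
  have hinv : InvS σ L := by
    intro g w hw
    obtain ⟨a, rfl⟩ := Submodule.mem_span_singleton.1 hw
    rw [map_smul, hσv]
    exact L.smul_mem a (L.smul_mem _ (Submodule.mem_span_singleton_self _))
  have hL1 : W₁ ⊓ L = ⊥ := by
    rw [eq_bot_iff]
    rintro w ⟨hw1, hw2⟩
    obtain ⟨a, rfl⟩ := Submodule.mem_span_singleton.1 hw2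
    have h3 : a • v₂ ∈ W₁ := by
      have h4 : a • v₂ = a • v₁ - a • (v₁ - v₂) := by rw [smul_sub]; abel
      rw [h4]
      exact W₁.sub_mem (W₁.smul_mem a hv₁) hw1
    have h5 : a • v₂ ∈ W₁ ⊓ W₂ := ⟨h3, W₂.smul_mem a hv₂⟩
    rw [hc.inf_eq_bot, Submodule.mem_bot, smul_eq_zero] at h5
    rcases h5 with h5 | h5
    · rw [h5, zero_smul]
      exact Submodule.zero_mem _
    · exact absurd h5 hv₂0
  have hL2 : W₂ ⊓ L = ⊥ := by
    rw [eq_bot_iff]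
    rintro w ⟨hw1, hw2⟩
    obtain ⟨a, rfl⟩ := Submodule.mem_span_singleton.1 hw2
    have h3 : a • v₁ ∈ W₂ := by
      have h4 : a • v₁ = a • v₂ + a • (v₁ - v₂) := by rw [smul_sub]; abel
      rw [h4]
      exact W₂.add_mem (W₂.smul_mem a hv₂) hw1
    have h5 : a • v₁ ∈ W₁ ⊓ W₂ := ⟨W₁.smul_mem a hv₁, h3⟩
    rw [hc.inf_eq_bot, Submodule.mem_bot, smul_eq_zero] at h5
    rcases h5 with h5 | h5
    · rw [h5, zero_smul]
      exact Submodule.zero_mem _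
    · exact absurd h5 hv₁0
  have hfr : finrank K (V ⧸ L) = finrank K V - 1 := by
    have h3 := L.finrank_quotient_add_finrank
    rw [hL, finrank_span_singleton hne] at h3
    rw [hL]
    omega
  let τ : Q →* Module.End K (V ⧸ L) := quoS σ L hinv
  let b : Basis (Fin (finrank K V - 1)) K (V ⧸ L) := Module.finBasisOfFinrankEq K (V ⧸ L) hfr
  let F : Q →* Matrix (Fin (finrank K V - 1)) (Fin (finrank K V - 1)) K :=
    ((LinearMap.toMatrixAlgEquiv b : Module.End K (V ⧸ L) ≃ₐ[K] _) : Module.End K (V ⧸ L) →* _).comp τ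
  refine ⟨F.toHomUnits, ?_⟩
  rw [injective_iff_map_eq_one]
  intro g hg
  have hF : F g = 1 := by
    have h3 := congrArg (fun u : GL (Fin (finrank K V - 1)) K =>
      (u : Matrix (Fin (finrank K V - 1)) (Fin (finrank K V - 1)) K)) hg
    exact h3
  have hτ : τ g = 1 := by
    have h3 : LinearMap.toMatrixAlgEquiv b (τ g) = 1 := hF
    rw [← map_one (LinearMap.toMatrixAlgEquiv b)] at h3
    exact (LinearMap.toMatrixAlgEquiv b).injective h3
  have hmod : ∀ x : V, σ g x - x ∈ L := by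
    intro x
    have h3 : τ g (L.mkQ x) = L.mkQ x := by rw [hτ]; rfl
    have h4 : L.mkQ (σ g x) = L.mkQ x := h3
    rw [← Submodule.ker_mkQ L, LinearMap.mem_ker, map_sub, h4, sub_self]
  have hf1 : ∀ x ∈ W₁, σ g x = x := by
    intro x hx
    have h3 : σ g x - x ∈ W₁ ⊓ L := by
      refine ⟨W₁.sub_mem ?_ hx, hmod x⟩
      rw [s1 g x hx]
      exact W₁.smul_mem _ (h1 g x hx)
    rw [hL1, Submodule.mem_bot] at h3
    exact sub_eq_zero.1 h3
  have hf2 : ∀ x ∈ W₂, σ g x = x := by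
    intro x hx
    have h3 : σ g x - x ∈ W₂ ⊓ L := by
      refine ⟨W₂.sub_mem ?_ hx, hmod x⟩
      rw [s2 g x hx]
      exact W₂.smul_mem _ (h2 g x hx)
    rw [hL2, Submodule.mem_bot] at h3
    exact sub_eq_zero.1 h3
  have hθ : θ g = 1 := by
    have h3 := hf1 v₁ hv₁
    rw [s1 g v₁ hv₁, hχ₁, smul_smul, mul_assoc, Units.inv_mul, mul_one] at h3
    have h4 : ((θ g : K) - 1) • v₁ = 0 := by rw [sub_smul, one_smul, h3, sub_self]
    rcases smul_eq_zero.1 h4 with h5 | h5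
    · exact Units.ext (sub_eq_zero.1 h5)
    · exact absurd h5 hv₁0
  refine hker g ?_ ?_ hθ
  · intro w hw
    have h3 := hf1 w hw
    rw [s1 g w hw, hθ, Units.val_one, one_mul] at h3
    calc ρ g w = ((χ₁ g : K) * ((χ₁ g)⁻¹ : Kˣ)) • ρ g w := by rw [Units.mul_inv, one_smul]
      _ = (χ₁ g : K) • w := by rw [mul_smul, h3]
  · intro w hw
    have h3 := hf2 w hw
    rw [s2 g w hw, hθ, Units.val_one, one_mul] at h3
    calc ρ g w = ((χ₂ g : K) * ((χ₂ g)⁻¹ : Kˣ)) • ρ g w := by rw [Units.mul_inv, one_smul]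
      _ = (χ₂ g : K) • w := by rw [mul_smul, h3]

end Pool.Agent.PR
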