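import Pool.Agent.helper5.PR.SpecS

set_option autoImplicit false

namespace Pool.Agent.PR

open Matrix

theorem S_HFI_ints {n : ℕ} (A : Matrix (Fin n) (Fin n) ℚ) :
    ∃ (D : ℕ) (B : Matrix (Fin n) (Fin n) ℤ), D ≠ 0 ∧ B.map (Int.castRingHom ℚ) = (D : ℚ) • A := by
  have h : ∀ i j, ∃ t : ℤ, ((∏ i, ∏ j, (A i j).den : ℕ) : ℚ) * A i j = (t : ℚ) := by
    intro i j
    have hd : (A i j).den ∣ ∏ i, ∏ j, (A i j).den :=
      (Finset.dvd_prod_of_mem (fun j => (A i j).den) (Finset.mem_univ j)).trans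
        (Finset.dvd_prod_of_mem (fun i => ∏ j, (A i j).den) (Finset.mem_univ i))
    obtain ⟨c, hc⟩ := hd
    refine ⟨c * (A i j).num, ?_⟩
    rw [hc]
    push_cast
    rw [mul_right_comm, mul_comm ((A i j).den : ℚ), Rat.mul_den_eq_num]
    ring
  choose t ht using h
  refine ⟨∏ i, ∏ j, (A i j).den, Matrix.of t, ?_, ?_⟩
  · exact Finset.prod_ne_zero_iff.mpr fun i _ => Finset.prod_ne_zero_iff.mpr fun j _ => (A i j).den_nz
  · ext i j
    show ((t i j : ℤ) : ℚ) = _ * A i j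
    exact (ht i j).symm

theorem S_HFI_rank_smul {n : ℕ} (A : Matrix (Fin n) (Fin n) ℚ) (c : ℚ) (hc : c ≠ 0) :
    (c • A).rank = A.rank :=
  rank_smul_of_mem_nonZeroDivisors A (mem_nonZeroDivisors_of_ne_zero hc)

theorem S_HFI_rk1 (hLRK1 : LRK1_stmt) {n : ℕ} (A : Matrix (Fin n) (Fin n) ℚ) (hr : (A - 1).rank = 1)
    (hd : A.det = 1) : (A - 1) ^ 2 = 0 := by
  obtain ⟨D, B, hD, hB⟩ := S_HFI_ints (A - 1)
  have hD0 : (D : ℚ) ≠ 0 := by exact_mod_cast hD
  obtain ⟨e, φ, heφ⟩ := hLRK1 n ℚ B (by rw [hB, S_HFI_rank_smul _ _ hD0]; exact hr)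
  have h1 : A = 1 + vecMulVec (fun i => (D : ℚ)⁻¹ * (e i : ℚ)) (fun i => (φ i : ℚ)) := by
    have h2 : A - 1 = vecMulVec (fun i => (D : ℚ)⁻¹ * (e i : ℚ)) (fun i => (φ i : ℚ)) := by
      ext i j
      have h3 := congrFun (congrFun hB i) j
      rw [heφ] at h3
      have h4 : ((e i * φ j : ℤ) : ℚ) = (D : ℚ) * (A - 1) i j := h3
      rw [vecMulVec_apply, mul_assoc, ← Int.cast_mul, h4, inv_mul_cancel_left₀ hD0]
    rw [← h2]
    abel
  set e' : Fin n → ℚ := fun i => (D : ℚ)⁻¹ * (e i : ℚ)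
  set φ' : Fin n → ℚ := fun i => (φ i : ℚ)
  have h5 : φ' ⬝ᵥ e' = 0 := by
    have h6 : (1 + vecMulVec e' φ').det = 1 + φ' ⬝ᵥ e' := by
      have h : vecMulVec e' φ' = replicateCol Unit e' * replicateRow Unit φ' := by
        ext i j
        simp [vecMulVec_apply, Matrix.mul_apply]
      rw [h, det_one_add_replicateCol_mul_replicateRow]
    rw [← h1, hd] at h6
    linarith
  have h7 : A - 1 = vecMulVec e' φ' := by
    rw [h1]
    abel
  rw [h7, pow_two, vecMulVec_mul_vecMulVec, h5, zero_smul, vecMulVec_zero]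

theorem S_HFI_pow {n : ℕ} (A : Matrix (Fin n) (Fin n) ℚ) (h : (A - 1) ^ 2 = 0) (a : ℕ) :
    A ^ a - 1 = (a : ℚ) • (A - 1) := by
  induction a with
  | zero => simp
  | succ a ih =>
    have h1 : A ^ (a + 1) - 1 = (A ^ a - 1) * (A - 1) + (A ^ a - 1) + (A - 1) := by
      rw [pow_succ]
      noncomm_ring
    rw [h1, ih, Matrix.smul_mul, ← pow_two, h, smul_zero, zero_add]
    push_cast
    rw [add_smul, one_smul]

/-- `ratM` as a homomorphism -/
def S_HFI_rat (n m : ℕ) : SLI n m →* Matrix (Fin n) (Fin n) ℚ where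
  toFun := ratM
  map_one' := by
    show (1 : Matrix (Fin n) (Fin n) (ZI m)).map (fun a => (a : ℚ)) = 1
    exact Matrix.map_one _ rfl rfl
  map_mul' := by
    intro y z
    exact Matrix.map_mul (f := (ZI m).val)

theorem S_HFI_rat_inj (n m : ℕ) : Function.Injective (S_HFI_rat n m) := by
  intro x y h
  apply Subtype.ext
  ext i j
  exact congrFun (congrFun h i) j

theorem S_HFI_inc (n m : ℕ) (γ : SLZ n) : S_HFI_rat n m (incI n m γ) = stdM ℚ γ := by
  ext i j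
  rfl

theorem S_HFI_inc_inj (n m : ℕ) : Function.Injective (incI n m) := by
  intro x y h
  have h1 := congrArg (S_HFI_rat n m) h
  rw [S_HFI_inc, S_HFI_inc] at h1
  apply Subtype.ext
  ext i j
  have h2 := congrFun (congrFun h1 i) j
  have h3 : (((x : Matrix (Fin n) (Fin n) ℤ) i j : ℤ) : ℚ) =
    (((y : Matrix (Fin n) (Fin n) ℤ) i j : ℤ) : ℚ) := h2
  exact_mod_cast h3

theorem S_HFI_det (n m : ℕ) (x : SLI n m) : (ratM x).det = 1 := by
  have h1 : ratM x = (ZI m).val.toRingHom.mapMatrix (x : Matrix (Fin n) (Fin n) (ZI m)) := rfl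
  rw [h1, ← RingHom.map_det, x.2, map_one]

theorem S_HFI (hZDH : S_ZDH_stmt) (hINT : S_INT_stmt) (hLRK1 : LRK1_stmt) : S_HFI_stmt := by
  intro n hn m hm Δ hD z hz u hu hzu hrk huni hpow
  have hsq : (ratM z - 1) ^ 2 = 0 := S_HFI_rk1 hLRK1 _ hrk (S_HFI_det n m z)
  have hzn : (ratM z - 1) ^ n = 0 := by
    obtain ⟨c, rfl⟩ := Nat.exists_eq_add_of_le (by omega : 2 ≤ n)
    rw [pow_add, hsq, zero_mul]
  obtain ⟨a, ha, γz, hγz⟩ := hINT n m hm z hzn
  obtain ⟨b, hb, γu, hγu⟩ := hINT n m hm u huni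
  have hzH : γz ∈ Δ.comap (incI n m) := by
    show incI n m γz ∈ Δ
    rw [hγz]
    exact Δ.pow_mem hz a
  have huH : γu ∈ Δ.comap (incI n m) := by
    show incI n m γu ∈ Δ
    rw [hγu]
    exact Δ.pow_mem hu b
  have ha0 : (a : ℚ) ≠ 0 := by exact_mod_cast (by omega : a ≠ 0)
  have hstd : stdM ℚ γz = ratM z ^ a := by
    rw [← S_HFI_inc n m γz, hγz, map_pow]
    rfl
  have hrk1 : (stdM ℚ γz - 1).rank = 1 := by
    rw [hstd, S_HFI_pow _ hsq a, S_HFI_rank_smul _ _ ha0]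
    exact hrk
  have hmap : ((γz : Matrix (Fin n) (Fin n) ℤ) - 1).map (Int.castRingHom ℚ) = stdM ℚ γz - 1 := by
    unfold stdM
    rw [Matrix.map_sub _ (map_sub _), Matrix.map_one _ (map_zero _) (map_one _)]
  obtain ⟨e, φ, heφ⟩ := hLRK1 n ℚ ((γz : Matrix (Fin n) (Fin n) ℤ) - 1) (by rw [hmap]; exact hrk1)
  have hze : (γz : Matrix (Fin n) (Fin n) ℤ) = 1 + vecMulVec e φ := by
    rw [← heφ]
    abel
  have hz1 : γz ≠ 1 := by
    intro h
    rw [h, stdM_one, sub_self, rank_zero] at hrk1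
    exact zero_ne_one hrk1
  obtain ⟨he, hφ, h0, hzt⟩ := Pool.Agent.H48SL.tv_data hz1 hze
  -- commutation
  have hcomm0 : γu * γz = γz * γu := by
    apply S_HFI_inc_inj n m
    rw [map_mul, map_mul, hγz, hγu]
    exact ((Commute.pow_pow (show Commute z u from hzu) a b).eq).symm
  have hcomm : (γu : Matrix (Fin n) (Fin n) ℤ) * (1 + vecMulVec e φ) =
      (1 + vecMulVec e φ) * (γu : Matrix (Fin n) (Fin n) ℤ) := by
    rw [← hze, ← Matrix.SpecialLinearGroup.coe_mul, ← Matrix.SpecialLinearGroup.coe_mul, hcomm0]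
  have hcomm2 : (γu : Matrix (Fin n) (Fin n) ℤ) * vecMulVec e φ =
      vecMulVec e φ * (γu : Matrix (Fin n) (Fin n) ℤ) := by
    rw [mul_add, add_mul, mul_one, one_mul] at hcomm
    exact add_left_cancel hcomm
  have hsm : φ ⬝ᵥ ((γu : Matrix (Fin n) (Fin n) ℤ) *ᵥ e) = 0 := by
    have h2 := congrArg (fun M => M *ᵥ e) hcomm2
    simp only [← mulVec_mulVec, vecMulVec_mulVec, h0] at h2
    have h3 : (φ ⬝ᵥ ((γu : Matrix (Fin n) (Fin n) ℤ) *ᵥ e)) • e = 0 := by
      have h4 : (0 : Fin n → ℤ) = MulOpposite.op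
          (φ ⬝ᵥ ((γu : Matrix (Fin n) (Fin n) ℤ) *ᵥ e)) • e := by
        rw [← h2]
        ext i
        simp
      ext i
      have h5 := congrFun h4 i
      simp only [Pi.zero_apply, Pi.smul_apply, MulOpposite.smul_eq_mul_unop,
        MulOpposite.unop_op] at h5
      simp only [Pi.smul_apply, smul_eq_mul, Pi.zero_apply]
      rw [mul_comm]
      exact h5.symm
    rcases smul_eq_zero.1 h3 with h5 | h5
    · exact h5
    · exact absurd h5 he
  refine (Pool.Agent.H48SL.final_coef (ι := Fin n) (by rw [Fintype.card_fin]; exact hn)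
    (Δ.comap (incI n m)) e φ γz γu hzH huH hz1 hze (by rw [hsm]; norm_num)
    (Or.inr (by
      intro k hk j h
      have h1 := congrArg (incI n m) h
      rw [map_pow, map_zpow, hγz, hγu, ← pow_mul, ← zpow_natCast z a, ← _root_.zpow_mul] at h1
      exact hpow (b * k) (Nat.mul_pos (by omega) (by omega)) _ h1))).1 ?_
  exact hZDH n hn m hm Δ hD z hz hrk

end Pool.Agent.PR
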