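import Pool.Agent.helper5.PR.SpecS

set_option autoImplicit false

namespace Pool.Agent.PR

theorem S_RFI_sep (Λ : Type) [Group Λ] (h : RF Λ) (s : Finset Λ) (hs : ∀ g ∈ s, g ≠ 1) :
    ∃ M : FiniteIndexNormalSubgroup Λ, ∀ g ∈ s, g ∉ M.toSubgroup := by
  classical
  induction s using Finset.induction_on with
  | empty => exact ⟨⟨⊤, inferInstance, inferInstance⟩, fun g hg => absurd hg (Finset.notMem_empty g)⟩
  | insert a s _ ih =>
    obtain ⟨M, hM⟩ := ih fun g hg => hs g (Finset.mem_insert_of_mem hg)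
    obtain ⟨H, hH, haH⟩ := h a (hs a (Finset.mem_insert_self a s))
    have : H.FiniteIndex := ⟨hH⟩
    let N : FiniteIndexNormalSubgroup Λ := ⟨H.normalCore, inferInstance, inferInstance⟩
    refine ⟨M ⊓ N, fun g hg => ?_⟩
    rcases Finset.mem_insert.1 hg with rfl | hg
    · intro hmem
      exact haH (H.normalCore_le (show g ∈ H.normalCore from hmem.2))
    · intro hmem
      exact hM g hg hmem.1

theorem S_RFI : S_RFI_stmt := by
  classical
  intro Λ _ hrf hinf C
  obtain ⟨T, hT⟩ := Infinite.exists_subset_card_eq Λ (C + 1)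
  obtain ⟨M, hM⟩ := S_RFI_sep Λ hrf
    (((T ×ˢ T).filter fun p => p.1 ≠ p.2).image fun p => p.1⁻¹ * p.2) (by
      intro g hg
      obtain ⟨p, hp, rfl⟩ := Finset.mem_image.1 hg
      intro h1
      exact (Finset.mem_filter.1 hp).2 (inv_mul_eq_one.1 h1))
  refine ⟨M, ?_⟩
  have h1 : Function.Injective fun t : T => ((t : Λ) : Λ ⧸ M.toSubgroup) := by
    intro a b hab
    by_contra hne
    have h2 : (a : Λ)⁻¹ * b ∈ M.toSubgroup := QuotientGroup.eq.1 hab
    refine hM _ (Finset.mem_image.2 ⟨((a : Λ), (b : Λ)), ?_, rfl⟩) h2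
    refine Finset.mem_filter.2 ⟨Finset.mem_product.2 ⟨a.2, b.2⟩, ?_⟩
    exact fun h3 => hne (Subtype.ext h3)
  have h2 := Nat.card_le_card_of_injective _ h1
  rw [Nat.card_eq_fintype_card, Fintype.card_coe, hT] at h2
  exact h2

end Pool.Agent.PR
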